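import Pool.Agent.Work.MP_d1ad45_an.L.Design

/-!
Partition of the coordinates into parts and the coordinate sets used by the rows.
-/

namespace Pool.Agent.Work.MP_d1ad45_an.L

open Finset Module

theorem coords {ρ : Type*} [Fintype ρ] [DecidableEq ρ] {M a g : ℕ} {c d : ρ → ℕ}
    {VR AN LD : Finset ρ} {an : ρ → ρ} (pl : Plan M c a g VR AN LD an)
    (hd : ∀ n, 1 ≤ d n ∧ d n + 1 ≤ M) (hc : ∀ n, c n ≤ d n ∧ c n + d n ≤ M) :
    ∃ (A : Finset (Fin M)) (π : Fin M → Fin M) (Z J : ρ → Finset (Fin M)), A.card = a ∧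
      (∀ k, π k ∈ A ∨ k ∈ A → π k = k) ∧ (∀ n ∉ VR ∪ AN, (Z n).card = d n) ∧
      (∀ τ ∈ AN, Disjoint (J τ) A ∧ (J τ).card + 1 = c τ) ∧
      (∀ ξ : Fin M → ℝ, (∀ n ∉ VR ∪ AN, ∑ k ∈ Z n, ξ k = 0) → ∀ l, ∑ k with π k = l, ξ k = 0) ∧
      ∀ ξ : Fin M → ℝ, (∀ l, ∑ k with π k = l, ξ k = 0) → (∀ τ ∈ AN, ∑ k ∈ J τ, ξ k = 0) →
        ξ = 0 := by
  have room := pl.room
  have hg := pl.hg
  have g1 := pl.g1
  have a2 := pl.a2
  have half := pl.half
  obtain ⟨A, -, hA⟩ := exists_subset_card_eq (s := (univ : Finset (Fin M))) (n := a)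
    (by simp; omega)
  obtain ⟨Q, hQ, hQc⟩ := exists_subset_card_eq (s := Aᶜ) (n := LD.card)
    (by rw [card_compl, Fintype.card_fin]; omega)
  have hAQ : Disjoint A Q := disjoint_left.2 fun k h h' => mem_compl.1 (hQ h') h
  obtain ⟨O, hO, hOc⟩ := exists_subset_card_eq (s := (A ∪ Q)ᶜ) (n := AN.card)
    (by rw [card_compl, Fintype.card_fin, card_union_of_disjoint hAQ]; omega)
  have hO' : ∀ k ∈ O, k ∉ A ∧ k ∉ Q := fun k h => by simpa using hO h
  obtain ⟨f⟩ : Nonempty (O ↪ Q × Fin (g - 1)) :=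
    Function.Embedding.nonempty_of_card_le (by simpa [hQc, hOc] using pl.cap)
  let π : Fin M → Fin M := fun k => if h : k ∈ O then (f ⟨k, h⟩).1 else k
  have π1 : ∀ k ∉ O, π k = k := fun k h => dif_neg h
  have π2 : ∀ k ∈ O, π k ∈ Q := fun k h => by simp only [π, dif_pos h]; exact (f ⟨k, h⟩).1.2
  let w : Fin M → ℕ := fun l => (univ.filter fun k => π k = l).card
  have fib1 : ∀ l, l ∉ Q → l ∉ O → (univ.filter fun k => π k = l) = {l} := by
    intro l h1 h2
    ext k
    simp only [mem_filter, mem_univ, true_and, mem_singleton]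
    refine ⟨fun h => ?_, fun h => by rw [h, π1 l h2]⟩
    by_cases hk : k ∈ O
    · exact absurd (h ▸ π2 k hk) h1
    · rw [← h, π1 k hk]
  have fib0 : ∀ l ∈ O, (univ.filter fun k => π k = l) = ∅ := by
    intro l hl
    refine filter_eq_empty_iff.2 fun k _ h => ?_
    by_cases hk : k ∈ O
    · exact (hO' l hl).2 (h ▸ π2 k hk)
    · rw [π1 k hk] at h
      exact hk (h ▸ hl)
  have fibg : ∀ l, w l ≤ g := by
    intro l
    have h1 : (O.filter fun k => π k = l).card ≤ (range (g - 1)).card := by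
      refine card_le_card_of_injOn (fun k => if h : k ∈ O then ((f ⟨k, h⟩).2 : ℕ) else 0)
        (fun k hk => ?_) fun k hk k' hk' e => ?_
      · have := (mem_filter.1 hk).1
        simp [this]
      · obtain ⟨h1, h2⟩ := mem_filter.1 hk
        obtain ⟨h3, h4⟩ := mem_filter.1 hk'
        simp only [π, dif_pos h1, dif_pos h3] at h2 h4 e
        exact congrArg Subtype.val
          (f.injective (Prod.ext (Subtype.ext (h2.trans h4.symm)) (Fin.ext e)))
    have h2 : (univ.filter fun k => π k = l) ⊆ insert l (O.filter fun k => π k = l) := by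
      intro k hk
      have := (mem_filter.1 hk).2
      by_cases h : k ∈ O
      · exact mem_insert_of_mem (mem_filter.2 ⟨h, this⟩)
      · rw [π1 k h] at this
        exact this ▸ mem_insert_self _ _
    have := (card_le_card h2).trans (card_insert_le _ _)
    rw [card_range] at h1
    simp only [w]
    omega
  have hQO : Disjoint Q O := disjoint_left.2 fun k h h' => (hO' k h').2 h
  have hP : ∀ k ∈ (Q ∪ O)ᶜ, k ∉ Q ∧ k ∉ O := fun k h => by simpa using h
  have hPc : ((Q ∪ O)ᶜ).card + LD.card + AN.card = M := by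
    rw [card_compl, Fintype.card_fin, card_union_of_disjoint hQO]
    omega
  have hw1 : ∀ k ∈ (Q ∪ O)ᶜ, w k = 1 := fun k h => by
    simp only [w, fib1 k (hP k h).1 (hP k h).2, card_singleton]
  have hsum : ((Q ∪ O)ᶜ).card + ∑ k ∈ Q, w k = M := by
    have h1 : ∑ k, w k = M := by
      rw [← card_eq_sum_card_fiberwise (by simp)]
      simp
    have h2 : ∑ k ∈ O, w k = 0 := sum_eq_zero fun k h => by simp only [w, fib0 k h, card_empty]
    rw [← sum_compl_add_sum (Q ∪ O), sum_union hQO, h2, sum_w hw1 Subset.rfl] at h1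
    omega
  have hL : LD ⊆ (VR ∪ AN)ᶜ := fun n h => by
    simp [disjoint_right.1 pl.d2 h, disjoint_right.1 pl.d3 h]
  obtain ⟨S, hS, hS0⟩ := parts_rows (P := (Q ∪ O)ᶜ) (Q := Q) (w := w) (g := g) (M := M)
    (disjoint_left.2 fun k h => (hP k h).1) hw1 (fun k _ => fibg k) hsum (by omega) (by omega) g1
    d ((VR ∪ AN)ᶜ \ LD) LD sdiff_disjoint (by
      have h1 := card_sdiff_add_card_eq_card hL
      have h2 := pl.card
      have h3 := card_compl_add_card (VR ∪ AN)
      rw [card_union_of_disjoint pl.d1] at h3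
      omega) hQc.symm (fun n _ => hd n) (fun n h => by
      have := pl.lead n h
      have := hc n
      omega)
  rw [sdiff_union_of_subset hL] at hS hS0
  let W : Submodule ℝ (Fin M → ℝ) :=
    { carrier := {ξ | ∀ l, ∑ k with π k = l, ξ k = 0}
      add_mem' := fun ha hb l => by simp [sum_add_distrib, ha l, hb l]
      zero_mem' := fun _ => by simp
      smul_mem' := fun c _ ha l => by simp [← mul_sum, ha l] }
  obtain ⟨J, hJ, hJ0⟩ := atoms_rows Aᶜ W (fun ξ hξ k hk => by
      have h1 : k ∈ A := by simpa using hk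
      simpa [fib1 k (disjoint_left.1 hAQ h1) fun h => (hO' k h).1 h1] using hξ k)
    (fun τ => c τ - 1) AN
    ((finrank_le_of_inj W O fun ξ hξ h => funext fun k => by
      by_cases hk : k ∈ O
      · exact h k hk
      · refine (sum_eq_single_of_mem (s := univ.filter fun j => π j = k) k
          (mem_filter.2 ⟨mem_univ _, π1 k hk⟩) fun j hj hjk => ?_).symm.trans (hξ k)
        refine h j (by_contra fun hj' => hjk ?_)
        exact (π1 j hj').symm.trans (mem_filter.1 hj).2).trans hOc.le)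
    (fun τ h => by
      have := pl.two τ h
      have := hc τ
      rw [card_compl, Fintype.card_fin]
      omega)
  refine ⟨A, π, fun n => univ.filter fun k => π k ∈ S n, J, hA, fun k hk => π1 k fun h => ?_,
    fun n hn => ?_, fun τ h => ⟨?_, ?_⟩, fun ξ h l => ?_, hJ0⟩
  · rcases hk with hk | hk
    · exact disjoint_left.1 hAQ hk (π2 k h)
    · exact (hO' k h).1 hk
  · rw [← hS n (mem_compl.2 hn), card_eq_sum_ones, ← sum_fiberwise_eq_sum_filter]
    simp only [w, card_eq_sum_ones]
  · exact disjoint_left.2 fun k hk => mem_compl.1 ((hJ τ h).1 hk)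
  · have := pl.two τ h
    have := (hJ τ h).2
    omega
  · refine congrFun (hS0 (fun l => ∑ k with π k = l, ξ k) (fun k hk => ?_) fun n hn => ?_) l
    · have : k ∈ O := by
        by_contra h0
        by_cases h1 : k ∈ Q <;> simp [h0, h1] at hk
      rw [fib0 k this, sum_empty]
    · rw [sm_apply, sum_fiberwise_eq_sum_filter]
      exact h n (mem_compl.1 hn)

end Pool.Agent.Work.MP_d1ad45_an.L
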