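import Pool.Agent.Work.MP_d1ad45_an.L.Frame
import Pool.Agent.Work.MP_d1ad45_an.L.Coord

/-!
The two-scale degeneration: projections of prescribed ranks built from a family of vectors.
-/

namespace Pool.Agent.Work.MP_d1ad45_an.L

open Filter Topology Matrix Finset

variable {M : ℕ}

/-- Columns `e i + δ t i` for `i ∈ J`. -/
noncomputable def atm (J : Finset (Fin M)) (t : Fin M → Vec M) (δ : ℝ) : Matrix (Fin M) J ℂ :=
  Matrix.of fun k i => (Pi.single i.1 1 + (δ : ℂ) • t i : Vec M) k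

/-- The scaling that fixes the coordinates in `A`. -/
noncomputable def sc (A : Finset (Fin M)) (ε : ℝ) : Mat M :=
  diagonal fun k => if k ∈ A then 1 else (ε : ℂ)

theorem sc_herm (A : Finset (Fin M)) (ε : ℝ) : (sc A ε)ᴴ = sc A ε := by
  rw [sc, diagonal_conjTranspose]
  congr 1
  funext k
  simp only [Pi.star_apply]
  split_ifs <;> simp

theorem sc_unit (A : Finset (Fin M)) {ε : ℝ} (h : ε ≠ 0) : IsUnit (sc A ε) := by
  rw [isUnit_iff_isUnit_det, sc, det_diagonal, isUnit_iff_ne_zero, prod_ne_zero_iff]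
  intro k _
  split_ifs <;> simp [h]

theorem sc_atm {A J : Finset (Fin M)} {t : Fin M → Vec M} (hJ : Disjoint J A)
    (ht : ∀ i, ∀ k ∉ A, t i k = 0) (ε δ : ℝ) :
    sc A ε * atm J t (ε * δ) = (ε : ℂ) • atm J t δ := by
  ext k i
  rw [sc, diagonal_mul]
  by_cases hk : k ∈ A
  · have : k ≠ i := fun e => disjoint_left.1 hJ i.2 (e ▸ hk)
    simp [atm, hk, this, mul_assoc]
  · simp [atm, hk, ht i k hk]

theorem gram_zero (J : Finset (Fin M)) (t : Fin M → Vec M) : (atm J t 0)ᴴ * atm J t 0 = 1 := by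
  ext i j
  simp only [atm, mul_apply, conjTranspose_apply, of_apply, Complex.ofReal_zero, zero_smul,
    add_zero, Pi.single_apply, one_apply, Subtype.ext_iff, mul_ite, mul_one, mul_zero,
    sum_ite_eq', mem_univ, if_true]
  by_cases h : (i : Fin M) = j
  · simp [h]
  · simp [h, Ne.symm h]

theorem atm_zero (J : Finset (Fin M)) (t : Fin M → Vec M) : atm J t 0 * (atm J t 0)ᴴ = cp J := by
  ext k l
  simp only [atm, mul_apply, conjTranspose_apply, of_apply, Complex.ofReal_zero, zero_smul,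
    add_zero, cp, diagonal_apply]
  rw [sum_coe_sort J fun i => (Pi.single i 1 : Vec M) k * star ((Pi.single i 1 : Vec M) l)]
  by_cases h : k = l <;> simp [Pi.single_apply, h]

theorem atm_cont (J : Finset (Fin M)) (t : Fin M → Vec M) : Continuous (atm J t) := by
  refine continuous_matrix fun a b => ?_
  simp only [atm, of_apply, Pi.add_apply, Pi.smul_apply, smul_eq_mul]
  fun_prop

theorem gram_cont (J : Finset (Fin M)) (t : Fin M → Vec M) :
    Continuous fun ε => (atm J t ε)ᴴ * atm J t ε :=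
  (atm_cont J t).matrix_conjTranspose.matrix_mul (atm_cont J t)

theorem gram_ev (J : Finset (Fin M)) (t : Fin M → Vec M) :
    ∀ᶠ ε in 𝓝 (0 : ℝ), IsUnit ((atm J t ε)ᴴ * atm J t ε).det := by
  simp only [isUnit_iff_ne_zero]
  exact (gram_cont J t).matrix_det.continuousAt.eventually_ne (by simp [gram_zero])

/-- The rescaled projection. -/
noncomputable def lim (J : Finset (Fin M)) (t : Fin M → Vec M) (ε : ℝ) : Mat M :=
  atm J t (ε * ε) * ((atm J t ε)ᴴ * atm J t ε)⁻¹ * (atm J t (ε * ε))ᴴ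

theorem lim_zero (J : Finset (Fin M)) (t : Fin M → Vec M) : lim J t 0 = cp J := by
  rw [lim, mul_zero, gram_zero, inv_one, Matrix.mul_one, atm_zero]

theorem lim_cont (J : Finset (Fin M)) (t : Fin M → Vec M) : ContinuousAt (lim J t) 0 := by
  have h1 : Continuous fun ε : ℝ => atm J t (ε * ε) := (atm_cont J t).comp (by fun_prop)
  have h2 : ContinuousAt (fun ε => ((atm J t ε)ᴴ * atm J t ε)⁻¹) 0 := by
    refine ContinuousAt.comp (g := Inv.inv) (continuousAt_matrix_inv _ ?_)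
      (gram_cont J t).continuousAt
    rw [gram_zero, det_one]
    exact NormedRing.inverse_continuousAt (1 : ℂˣ)
  have h3 : Continuous fun p : Matrix (Fin M) J ℂ × Matrix J J ℂ => p.1 * p.2 * p.1ᴴ :=
    (continuous_fst.matrix_mul continuous_snd).matrix_mul continuous_fst.matrix_conjTranspose
  exact h3.continuousAt.comp (f := fun ε : ℝ => (atm J t (ε * ε), ((atm J t ε)ᴴ * atm J t ε)⁻¹))
    (h1.continuousAt.prodMk h2)

theorem bf_conj (P T : Mat M) (x : Vec M) : bf P (T *ᵥ x) (T *ᵥ x) = bf (Tᴴ * P * T) x x := by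
  rw [bf, bf, ip_mulVec, mulVec_mulVec, mulVec_mulVec]

theorem bf_lim {A J : Finset (Fin M)} {t : Fin M → Vec M} (hJ : Disjoint J A)
    (ht : ∀ i, ∀ k ∉ A, t i k = 0) (ε : ℝ) (x : Vec M) :
    bf (lim J t ε) (sc A ε *ᵥ x) (sc A ε *ᵥ x) = ε * ε * bf (pr (atm J t ε)) x x := by
  have : (sc A ε)ᴴ * lim J t ε * sc A ε = (sc A ε * atm J t (ε * ε)) *
      ((atm J t ε)ᴴ * atm J t ε)⁻¹ * (sc A ε * atm J t (ε * ε))ᴴ := by
    simp only [lim, conjTranspose_mul, sc_herm, Matrix.mul_assoc]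
  rw [bf_conj, this, sc_atm hJ ht]
  simp only [bf, pr, conjTranspose_smul, Matrix.smul_mul, Matrix.mul_smul, smul_mulVec,
    dotProduct_smul, smul_eq_mul, Complex.star_def, Complex.conj_ofReal, Complex.re_ofReal_mul,
    mul_assoc]

theorem pr_mulVec {A J : Finset (Fin M)} {t : Fin M → Vec M} (hJ : Disjoint J A)
    (ht : ∀ i, ∀ k ∉ A, t i k = 0) (ε : ℝ) {ψ : Vec M}
    (h : ∀ i, star ψ ⬝ᵥ (Pi.single i 1 + t i) = 0) : pr (atm J t ε) *ᵥ sc A ε *ᵥ ψ = 0 := by
  have h1 : (atm J t 1)ᴴ *ᵥ ψ = 0 := by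
    funext i
    have := congrArg star (h i)
    rw [← star_dotProduct, star_zero] at this
    rw [Pi.zero_apply, ← this]
    simp [atm, mulVec, dotProduct]
  have h2 := congrArg conjTranspose (sc_atm hJ ht ε 1)
  rw [mul_one, conjTranspose_mul, sc_herm] at h2
  rw [pr, ← mulVec_mulVec, mulVec_mulVec ψ, h2, conjTranspose_smul, smul_mulVec, h1]
  simp

theorem pr_cp {J : Finset (Fin M)} {t : Fin M → Vec M} {k : Fin M} (hJ : k ∉ J)
    (ht : ∀ i, t i k = 0) (ε : ℝ) : pr (atm J t ε) * cp {k} = 0 := by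
  have : (atm J t ε)ᴴ * cp {k} = 0 := by
    ext i l
    rw [cp, mul_diagonal]
    by_cases h : l = k
    · have : k ≠ i := fun e => hJ (e ▸ i.2)
      simp [atm, h, ht, this]
    · simp [h]
  rw [pr, Matrix.mul_assoc, this, Matrix.mul_zero]

theorem core {ρ : Type*} [Fintype ρ] [DecidableEq ρ] {c d : ρ → ℕ} {VR AN : Finset ρ}
    {an : ρ → ρ} (d1 : Disjoint VR AN) (att : ∀ n ∈ VR, c n ≠ 1 → an n ∈ AN ∧ c (an n) = c n)
    (hc : ∀ n, d n = c n ∨ c n + d n = M) {A : Finset (Fin M)} {k0 : Fin M} (hk0 : k0 ∈ A)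
    {π : Fin M → Fin M} {Z J : ρ → Finset (Fin M)} (hπ : ∀ k, π k ∈ A ∨ k ∈ A → π k = k)
    (hZ : ∀ n ∉ VR ∪ AN, (Z n).card = d n) (hJ : ∀ τ ∈ AN, Disjoint (J τ) A ∧ (J τ).card + 1 = c τ)
    (hZ0 : ∀ ξ : Fin M → ℝ, (∀ n ∉ VR ∪ AN, ∑ k ∈ Z n, ξ k = 0) →
      ∀ l, ∑ k with π k = l, ξ k = 0)
    (hJ0 : ∀ ξ : Fin M → ℝ, (∀ l, ∑ k with π k = l, ξ k = 0) → (∀ τ ∈ AN, ∑ k ∈ J τ, ξ k = 0) →
      ξ = 0)
    {ψ : VR → Vec M} (hψ : GoodV (Sum.elim (fun k => Pi.single k 1) ψ)) (hψ0 : ∀ v, ψ v ≠ 0)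
    {t : ρ → Fin M → Vec M} (ht : ∀ τ ∈ AN, ∀ i, ∀ k ∉ A.erase k0, t τ i k = 0)
    (hψt : ∀ v : VR, c v ≠ 1 → ∀ i, star (ψ v) ⬝ᵥ (Pi.single i 1 + t (an v) i) = 0) :
    ∃ P : ρ → Mat M, (∀ n, IsPr (P n) (d n)) ∧ Good P := by
  have ht1 : ∀ τ ∈ AN, ∀ i, ∀ k ∉ A, t τ i k = 0 := fun τ h i k hk =>
    ht τ h i k fun h' => hk (mem_of_mem_erase h')
  let F : ℝ → Fin M ⊕ AN ⊕ VR → Mat M := fun ε => Sum.elim (fun l => cp (univ.filter (π · = l)))
    (Sum.elim (fun τ => lim (J τ) (t τ) ε) fun v => vecMulVec (ψ v) (star (ψ v)))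
  have h1 : ∀ᶠ ε in 𝓝 (0 : ℝ), Good (F ε) := by
    refine good_ev F ?_ fun x y h => hψ x y ?_
    · rintro (l | τ | v)
      exacts [continuousAt_const, lim_cont _ _, continuousAt_const]
    · have := hJ0 (fun k => ‖x k‖ ^ 2 - ‖y k‖ ^ 2) (fun l => by
        rw [sum_sub_distrib, ← bf_cp, ← bf_cp, sub_eq_zero]
        exact h (Sum.inl l)) fun τ hτ => by
        rw [sum_sub_distrib, ← bf_cp, ← bf_cp, sub_eq_zero, ← lim_zero _ (t τ)]
        exact h (Sum.inr (Sum.inl ⟨τ, hτ⟩))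
      rintro (k | v)
      · have := sub_eq_zero.1 (congrFun this k)
        simpa using this
      · have := h (Sum.inr (Sum.inr v))
        simp only [F, Sum.elim_inr, bf_one] at this
        simpa using this
  have h2 : ∀ᶠ ε in 𝓝 (0 : ℝ), ∀ τ, IsUnit ((atm (J τ) (t τ) ε)ᴴ * atm (J τ) (t τ) ε).det :=
    eventually_all.2 fun τ => gram_ev _ _
  obtain ⟨ε, ⟨hF, hG⟩, hε⟩ := (((h1.and h2).filter_mono nhdsWithin_le_nhds).and
    (self_mem_nhdsWithin (s := ({0}ᶜ : Set ℝ)))).exists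
  have hT := sc_unit A hε
  let U : ρ → Mat M := fun τ => pr (atm (J τ) (t τ) ε)
  have hU : ∀ τ, IsPr (U τ) (J τ).card := fun τ => by simpa using isPr_pr _ (hG τ)
  let B : ρ → Mat M := fun n => if h : n ∈ VR then
    (if c n = 1 then 0 else U (an n)) + ln (sc A ε *ᵥ ψ ⟨n, h⟩) else U n + cp {k0}
  have hw : ∀ v, sc A ε *ᵥ ψ v ≠ 0 := fun v e =>
    hψ0 v (mulVec_injective_of_isUnit hT (e.trans (mulVec_zero _).symm))
  have hB : ∀ n ∈ VR ∪ AN, IsPr (B n) (c n) := by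
    intro n hn
    by_cases h : n ∈ VR
    · by_cases h1 : c n = 1
      · simpa [B, h, h1] using isPr_ln (hw ⟨n, h⟩)
      · obtain ⟨a1, a2⟩ := att n h h1
        simp only [B, dif_pos h, if_neg h1]
        rw [← a2, ← (hJ _ a1).2]
        exact (hU _).add (isPr_ln (hw _))
          (mul_ln (pr_mulVec (hJ _ a1).1 (ht1 _ a1) ε (hψt ⟨n, h⟩ h1)))
    · have a1 := (mem_union.1 hn).resolve_left h
      simp only [B, dif_neg h]
      rw [← (hJ _ a1).2]
      exact (hU _).add (isPr_cp {k0}) (pr_cp (disjoint_right.1 (hJ _ a1).1 hk0)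
        (fun i => ht n a1 i k0 (notMem_erase _ _)) ε)
  refine ⟨fun n => if n ∈ VR ∪ AN then (if d n = c n then B n else 1 - B n) else cp (Z n),
    fun n => ?_, fun x y h => ?_⟩
  · beta_reduce
    split_ifs with h1 h2
    · exact h2 ▸ hB n h1
    · exact (hB n h1).compl ((hc n).resolve_left h2)
    · exact hZ n h1 ▸ isPr_cp _
  have e1 := hZ0 (fun k => ‖x k‖ ^ 2 - ‖y k‖ ^ 2) fun n hn => by
    rw [sum_sub_distrib, ← bf_cp, ← bf_cp, sub_eq_zero]
    simpa only [if_neg hn] using h n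
  have e2 : bf 1 x x = bf 1 y y := by
    rw [bf_id, bf_id, ← sub_eq_zero, ← sum_sub_distrib, ← sum_fiberwise univ π]
    exact sum_eq_zero fun l _ => e1 l
  have e3 : ∀ n ∈ VR ∪ AN, bf (B n) x x = bf (B n) y y := by
    intro n hn
    have := h n
    simp only [if_pos hn] at this
    split_ifs at this
    · exact this
    · rw [bf_sub, bf_sub] at this
      linarith
  have e4 : bf (cp {k0}) x x = bf (cp {k0}) y y := by
    have : univ.filter (π · = k0) = {k0} := by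
      ext k
      simp only [mem_filter, mem_univ, true_and, mem_singleton]
      exact ⟨fun e => (hπ k (Or.inl (e ▸ hk0))).symm.trans e, fun e => e ▸ hπ k0 (Or.inr hk0)⟩
    rw [bf_cp, bf_cp, ← sub_eq_zero, ← sum_sub_distrib, ← this]
    exact e1 k0
  have e5 : ∀ τ ∈ AN, bf (U τ) x x = bf (U τ) y y := by
    intro τ hτ
    have := e3 τ (mem_union_right _ hτ)
    simp only [B, dif_neg (disjoint_right.1 d1 hτ), bf_add] at this
    linarith
  have e6 : ∀ v : VR, bf (ln (sc A ε *ᵥ ψ v)) x x = bf (ln (sc A ε *ᵥ ψ v)) y y := by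
    rintro ⟨n, hn⟩
    have := e3 n (mem_union_left _ hn)
    simp only [B, dif_pos hn] at this
    split_ifs at this with h1
    · simpa using this
    · have := e5 _ (att n hn h1).1
      simp only [bf_add] at *
      linarith
  obtain ⟨u, hu, e⟩ := hF (sc A ε *ᵥ x) (sc A ε *ᵥ y) (by
    rintro (l | τ | v)
    · have key : ∀ z : Vec M, ∀ k ∈ univ.filter (π · = l),
          ‖(sc A ε *ᵥ z) k‖ ^ 2 = (if l ∈ A then 1 else ε ^ 2) * ‖z k‖ ^ 2 := by
        intro z k hk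
        have hk := (mem_filter.1 hk).2
        have : k ∈ A ↔ l ∈ A := ⟨fun a => by rw [← hk, hπ k (Or.inr a)]; exact a,
          fun a => by rw [← hπ k (Or.inl (hk ▸ a)), hk]; exact a⟩
        rw [sc, mulVec_diagonal]
        by_cases a : l ∈ A <;> simp [this, a, mul_pow]
      simp only [F, Sum.elim_inl, bf_cp]
      rw [sum_congr rfl (key x), sum_congr rfl (key y), ← mul_sum, ← mul_sum]
      congr 1
      rw [← sub_eq_zero, ← sum_sub_distrib]
      exact e1 l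
    · simp only [F, Sum.elim_inr, Sum.elim_inl, bf_lim (hJ _ τ.2).1 (ht1 _ τ.2)]
      exact congrArg _ (e5 _ τ.2)
    · have := e6 v
      rw [bf_ln, bf_ln, mul_right_inj' (inv_ne_zero fun a => hw v (ip_re_self a)), ip_mulVec,
        ip_mulVec, sc_herm] at this
      simpa only [F, Sum.elim_inr, bf_one] using this)
  rw [← mulVec_smul] at e
  exact ⟨u, hu, mulVec_injective_of_isUnit hT e⟩

theorem transfer {ρ : Type*} [Fintype ρ] [DecidableEq ρ] (hM : 65 ≤ M)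
    (hN : Fintype.card ρ + 2 ≤ 4 * M) {φ : ρ → Vec M} (hφ : GoodV φ) (d : ρ → ℕ)
    (hd : ∀ n, 1 ≤ d n ∧ d n + 1 ≤ M) : ∃ P : ρ → Mat M, (∀ n, IsPr (P n) (d n)) ∧ Good P := by
  let c : ρ → ℕ := fun n => min (d n) (M - d n)
  obtain ⟨a, g, VR, AN, LD, an, pl⟩ := exists_plan M c
    (fun n => by have := hd n; simp only [c]; omega) hM hφ.card_le hN
  obtain ⟨A, π, Z, J, hA, hπ, hZ, hJ, hZ0, hJ0⟩ := coords pl hd
    (fun n => by have := hd n; simp only [c]; omega)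
  have e : Fin M ⊕ VR ≃ ρ := Fintype.equivOfCardEq (by simp [← pl.card, add_comm])
  obtain ⟨ψ, hψ, hψ0, ht⟩ := exists_frame (φ := φ ∘ e)
    (fun x y h => hφ x y fun i => by simpa using h (e.symm i)) (by omega)
  obtain ⟨k0, hk0⟩ := card_pos.1 (show 0 < A.card by have := pl.a2; omega)
  have : ∀ τ ∈ AN, ∀ i, ∃ t : Vec M, (∀ k ∉ A.erase k0, t k = 0) ∧
      ∀ v : VR, c v ≠ 1 → an v = τ → star (ψ v) ⬝ᵥ (Pi.single i 1 + t) = 0 := by
    intro τ hτ i
    obtain ⟨t, h1, h2⟩ := ht (univ.filter fun v : VR => c v ≠ 1 ∧ an v = τ) (A.erase k0) (by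
      have h1 := pl.fib τ hτ
      have h2 : (univ.filter fun v : VR => c v ≠ 1 ∧ an v = τ).card ≤
          (VR.filter fun n => c n ≠ 1 ∧ an n = τ).card :=
        card_le_card_of_injOn Subtype.val (fun v hv => by simpa using hv)
          Subtype.val_injective.injOn
      rw [card_erase_of_mem hk0]
      omega) i
    exact ⟨t, h1, fun v a b => h2 v (mem_filter.2 ⟨mem_univ _, a, b⟩)⟩
  choose! t ht1 ht2 using this
  exact core pl.d1 pl.att (fun n => by have := hd n; simp only [c]; omega) hk0 hπ hZ hJ hZ0 hJ0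
    hψ hψ0 ht1 fun v hv i => ht2 _ (pl.att v v.2 hv).1 i v hv rfl

end Pool.Agent.Work.MP_d1ad45_an.L
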