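import Mathlib

/-!
Greedy choice of zero-one rows with prescribed sums, and the distribution of the rows of a
rank sequence into groups.
-/

namespace Pool.Agent.Work.MP_d1ad45_an.L

open Finset Module

/-- Sum over a finite set as a functional. -/
def sm {Λ : Type*} (S : Finset Λ) : (Λ → ℝ) →ₗ[ℝ] ℝ where
  toFun ξ := ∑ k ∈ S, ξ k
  map_add' _ _ := by simp [sum_add_distrib]
  map_smul' _ _ := by simp [mul_sum]

theorem sm_apply {Λ : Type*} (S : Finset Λ) (ξ : Λ → ℝ) : sm S ξ = ∑ k ∈ S, ξ k := rfl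

theorem greedy {Λ ρ : Type*} [Fintype Λ] [DecidableEq ρ] (A : ρ → Finset Λ → Prop) (t : ℕ)
    (R : Finset ρ) : ∀ W : Submodule ℝ (Λ → ℝ), finrank ℝ W ≤ t + R.card →
    (∀ n ∈ R, ∃ S, A n S) →
    (∀ n ∈ R, ∀ W' ≤ W, t < finrank ℝ W' → ∃ S, A n S ∧ ∃ ξ ∈ W', sm S ξ ≠ 0) →
    ∃ Z : ρ → Finset Λ, (∀ n ∈ R, A n (Z n)) ∧ ∃ W' ≤ W, finrank ℝ W' ≤ t ∧
      ∀ ξ ∈ W, (∀ n ∈ R, sm (Z n) ξ = 0) → ξ ∈ W' := by
  induction R using Finset.induction_on with
  | empty =>
    intro W hW _ _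
    exact ⟨fun _ => ∅, by simp, W, le_rfl, by simpa using hW, fun ξ h _ => h⟩
  | insert n R hn ih =>
    intro W hW hne hA
    have : ∃ S, A n S ∧ finrank ℝ (W ⊓ LinearMap.ker (sm S) : Submodule ℝ (Λ → ℝ)) ≤ t + R.card := by
      by_cases h : t < finrank ℝ W
      · obtain ⟨S, hS, ξ, hξ, h0⟩ := hA n (mem_insert_self _ _) W le_rfl h
        refine ⟨S, hS, ?_⟩
        have hlt : W ⊓ LinearMap.ker (sm S) < W := by
          refine lt_of_le_of_ne inf_le_left fun e => h0 ?_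
          have : ξ ∈ W ⊓ LinearMap.ker (sm S) := by rw [e]; exact hξ
          exact this.2
        have := Submodule.finrank_lt_finrank_of_lt hlt
        rw [card_insert_of_notMem hn] at hW
        omega
      · obtain ⟨S, hS⟩ := hne n (mem_insert_self _ _)
        have := Submodule.finrank_mono (inf_le_left : W ⊓ LinearMap.ker (sm S) ≤ W)
        exact ⟨S, hS, by omega⟩
    obtain ⟨S, hS, hr⟩ := this
    obtain ⟨Z, hZ, W', hW', h1, h2⟩ := ih _ hr (fun m hm => hne m (mem_insert_of_mem hm))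
      fun m hm W' hW' => hA m (mem_insert_of_mem hm) W' (hW'.trans inf_le_left)
    refine ⟨Function.update Z n S, ?_, W', hW'.trans inf_le_left, h1, fun ξ hξ h => ?_⟩
    · intro m hm
      rcases mem_insert.1 hm with rfl | hm
      · simpa using hS
      · rw [Function.update_of_ne (ne_of_mem_of_not_mem hm hn)]
        exact hZ m hm
    · refine h2 ξ ⟨hξ, ?_⟩ fun m hm => ?_
      · simpa using h n (mem_insert_self _ _)
      · have := h m (mem_insert_of_mem hm)
        rwa [Function.update_of_ne (ne_of_mem_of_not_mem hm hn)] at this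

theorem finrank_le_of_inj {Λ : Type*} [Fintype Λ] (W : Submodule ℝ (Λ → ℝ)) (Q : Finset Λ)
    (h : ∀ ξ ∈ W, (∀ k ∈ Q, ξ k = 0) → ξ = 0) : finrank ℝ W ≤ Q.card := by
  let l : W →ₗ[ℝ] (Q → ℝ) := LinearMap.funLeft ℝ ℝ Subtype.val ∘ₗ W.subtype
  have hl : Function.Injective l := by
    rw [← LinearMap.ker_eq_bot, LinearMap.ker_eq_bot']
    intro ξ hξ
    exact Subtype.ext (h ξ ξ.2 fun k hk => congrFun hξ ⟨k, hk⟩)
  simpa using LinearMap.finrank_le_finrank_of_injective hl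

theorem hit {Λ : Type*} [DecidableEq Λ] (w : Λ → ℕ) (g lo : ℕ) (Q : Finset Λ) :
    (∀ k ∈ Q, w k ≤ g) → lo ≤ ∑ k ∈ Q, w k →
      ∃ S ⊆ Q, lo ≤ ∑ k ∈ S, w k ∧ (S = ∅ ∨ 1 ≤ lo ∧ ∑ k ∈ S, w k + 1 ≤ lo + g) := by
  induction Q using Finset.induction_on with
  | empty => exact fun _ h => ⟨∅, Subset.rfl, h, Or.inl rfl⟩
  | insert a Q ha ih =>
    intro hw h
    by_cases h1 : lo ≤ ∑ k ∈ Q, w k
    · obtain ⟨S, hS, h2⟩ := ih (fun k hk => hw k (mem_insert_of_mem hk)) h1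
      exact ⟨S, hS.trans (subset_insert _ _), h2⟩
    · refine ⟨_, Subset.rfl, h, Or.inr ?_⟩
      have := hw a (mem_insert_self _ _)
      rw [sum_insert ha]
      omega

section Parts

variable {Λ : Type*} [DecidableEq Λ] {P Q : Finset Λ} {w : Λ → ℕ} {g M d : ℕ}

theorem exists_base (hQ : ∀ k ∈ Q, w k ≤ g) (hM : P.card + ∑ k ∈ Q, w k = M)
    (hg : 2 * g ≤ P.card + 1) (hp : 2 ≤ P.card) (h1 : 1 ≤ d) (h2 : d + 1 ≤ M) :
    ∃ S ⊆ Q, ∑ k ∈ S, w k + 1 ≤ d ∧ d + 1 ≤ ∑ k ∈ S, w k + P.card := by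
  obtain ⟨S, hS, h3, h4⟩ := hit w g (d + 1 - P.card) Q hQ (by omega)
  refine ⟨S, hS, ?_, by omega⟩
  rcases h4 with rfl | h4
  · simpa using h1
  · omega

omit [DecidableEq Λ] in
theorem sum_w (hP : ∀ k ∈ P, w k = 1) {Y : Finset Λ} (hY : Y ⊆ P) : ∑ k ∈ Y, w k = Y.card := by
  rw [card_eq_sum_ones]
  exact sum_congr rfl fun k hk => hP k (hY hk)

theorem exists_row (hPQ : Disjoint P Q) (hP : ∀ k ∈ P, w k = 1) (hQ : ∀ k ∈ Q, w k ≤ g)
    (hM : P.card + ∑ k ∈ Q, w k = M) (hg : 2 * g ≤ P.card + 1) (hp : 2 ≤ P.card) (h1 : 1 ≤ d)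
    (h2 : d + 1 ≤ M) : ∃ S ⊆ P ∪ Q, ∑ k ∈ S, w k = d := by
  obtain ⟨S, hS, h3, h4⟩ := exists_base hQ hM hg hp h1 h2
  obtain ⟨Y, hY, hc⟩ := exists_subset_card_eq (s := P) (n := d - ∑ k ∈ S, w k) (by omega)
  refine ⟨Y ∪ S, union_subset_union hY hS, ?_⟩
  rw [sum_union (hPQ.mono hY hS), sum_w hP hY]
  omega

/-- The values on the singletons agree, and one row is of a known shape. -/
theorem parts_const (hPQ : Disjoint P Q) (hP : ∀ k ∈ P, w k = 1) (hQ : ∀ k ∈ Q, w k ≤ g)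
    (hM : P.card + ∑ k ∈ Q, w k = M) (hg : 2 * g ≤ P.card + 1) (hp : 2 ≤ P.card) (h1 : 1 ≤ d)
    (h2 : d + 1 ≤ M) (ξ : Λ → ℝ) (h : ∀ S ⊆ P ∪ Q, ∑ k ∈ S, w k = d → sm S ξ = 0) :
    ∃ x : ℝ, (∀ k ∈ P, ξ k = x) ∧ ∃ S ⊆ Q, ∑ k ∈ S, w k + 1 ≤ d ∧
      ((d - ∑ k ∈ S, w k : ℕ) : ℝ) * x + ∑ k ∈ S, ξ k = 0 := by
  obtain ⟨S, hS, h3, h4⟩ := exists_base hQ hM hg hp h1 h2
  have row : ∀ Y ⊆ P, Y.card = d - ∑ k ∈ S, w k → ∑ k ∈ Y, ξ k + ∑ k ∈ S, ξ k = 0 := by
    intro Y hY hc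
    have := h (Y ∪ S) (union_subset_union hY hS) (by
      rw [sum_union (hPQ.mono hY hS), sum_w hP hY]; omega)
    rwa [sm_apply, sum_union (hPQ.mono hY hS)] at this
  have eq : ∀ k ∈ P, ∀ l ∈ P, ξ k = ξ l := by
    intro k hk l hl
    by_cases hkl : k = l
    · rw [hkl]
    obtain ⟨Y, hY, hc⟩ := exists_subset_card_eq (s := (P.erase k).erase l)
      (n := d - ∑ k ∈ S, w k - 1) (by
        rw [card_erase_of_mem (mem_erase.2 ⟨Ne.symm hkl, hl⟩), card_erase_of_mem hk]; omega)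
    have hYP : Y ⊆ P := hY.trans ((erase_subset _ _).trans (erase_subset _ _))
    have hkY : k ∉ Y := fun h => by simpa using hY h
    have hlY : l ∉ Y := fun h => by simpa using hY h
    have a := row (insert k Y) (insert_subset hk hYP) (by rw [card_insert_of_notMem hkY]; omega)
    have b := row (insert l Y) (insert_subset hl hYP) (by rw [card_insert_of_notMem hlY]; omega)
    rw [sum_insert hkY] at a
    rw [sum_insert hlY] at b
    linarith
  obtain ⟨k0, hk0⟩ := card_pos.1 (show 0 < P.card by omega)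
  refine ⟨ξ k0, fun k hk => eq k hk k0 hk0, S, hS, h3, ?_⟩
  obtain ⟨Y, hY, hc⟩ := exists_subset_card_eq (s := P) (n := d - ∑ k ∈ S, w k) (by omega)
  have := row Y hY hc
  rwa [sum_congr rfl fun k hk => eq k (hY hk) k0 hk0, sum_const, hc, nsmul_eq_mul] at this

theorem parts_one (hPQ : Disjoint P Q) (hP : ∀ k ∈ P, w k = 1) (hQ : ∀ k ∈ Q, w k ≤ g)
    (hM : P.card + ∑ k ∈ Q, w k = M) (hg : 2 * g ≤ P.card + 1) (hp : 2 ≤ P.card) (h1 : 1 ≤ d)
    (h2 : d + 1 ≤ M) (ξ : Λ → ℝ) (h : ∀ S ⊆ P ∪ Q, ∑ k ∈ S, w k = d → sm S ξ = 0)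
    (h0 : ∀ k ∈ Q, ξ k = 0) : ∀ k ∈ P, ξ k = 0 := by
  obtain ⟨x, hx, S, hS, h3, h4⟩ := parts_const hPQ hP hQ hM hg hp h1 h2 ξ h
  rw [sum_eq_zero fun k hk => h0 k (hS hk), add_zero, mul_eq_zero] at h4
  rcases h4 with h4 | h4
  · have : d - ∑ k ∈ S, w k = 0 := by exact_mod_cast h4
    omega
  · exact fun k hk => (hx k hk).trans h4

theorem parts_two (hPQ : Disjoint P Q) (hP : ∀ k ∈ P, w k = 1) (hQ : ∀ k ∈ Q, w k ≤ g)
    (hM : P.card + ∑ k ∈ Q, w k = M) (hg : 2 * g ≤ P.card + 1) (hp : 2 ≤ P.card) (hg1 : 1 ≤ g)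
    (h1 : g ≤ d) (h2 : d + g ≤ M) (ξ : Λ → ℝ)
    (h : ∀ S ⊆ P ∪ Q, ∑ k ∈ S, w k = d → sm S ξ = 0) : ∀ k ∈ P ∪ Q, ξ k = 0 := by
  obtain ⟨x, hx, S0, hS0, h3, h4⟩ :=
    parts_const hPQ hP hQ hM hg hp (by omega) (by omega) ξ h
  have hb : ∀ l ∈ Q, ξ l = w l * x := by
    intro l hl
    have hl' := hQ l hl
    have e := add_sum_erase Q w hl
    obtain ⟨S, hS, h5, h6⟩ := hit w g (d - P.card) (Q.erase l)
      (fun k hk => hQ k (mem_of_mem_erase hk)) (by omega)
    have h7 : ∑ k ∈ S, w k + w l ≤ d := by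
      rcases h6 with rfl | h6
      · simp; omega
      · omega
    have hSQ : S ⊆ Q := hS.trans (erase_subset _ _)
    have hlS : l ∉ S := fun h => by simpa using hS h
    have row : ∀ T ⊆ Q, ∑ k ∈ T, w k ≤ d → d ≤ ∑ k ∈ T, w k + P.card →
        ((d : ℝ) - (∑ k ∈ T, w k : ℕ)) * x + ∑ k ∈ T, ξ k = 0 := by
      intro T hT a b
      obtain ⟨Y, hY, hc⟩ := exists_subset_card_eq (s := P) (n := d - ∑ k ∈ T, w k) (by omega)
      have := h (Y ∪ T) (union_subset_union hY hT) (by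
        rw [sum_union (hPQ.mono hY hT), sum_w hP hY]; omega)
      rwa [sm_apply, sum_union (hPQ.mono hY hT), sum_congr rfl fun k hk => hx k (hY hk),
        sum_const, hc, nsmul_eq_mul, Nat.cast_sub a] at this
    have a := row S hSQ (by omega) (by omega)
    have b := row (insert l S) (insert_subset hl hSQ) (by rw [sum_insert hlS]; omega)
      (by rw [sum_insert hlS]; omega)
    rw [sum_insert hlS, sum_insert hlS, Nat.cast_add] at b
    linarith
  have hx0 : x = 0 := by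
    rw [sum_congr rfl fun k hk => hb k (hS0 hk), ← sum_mul, Nat.cast_sub (by omega),
      Nat.cast_sum] at h4
    have : (d : ℝ) * x = 0 := by linarith
    rcases mul_eq_zero.1 this with h5 | h5
    · have : d = 0 := by exact_mod_cast h5
      omega
    · exact h5
  intro k hk
  rcases mem_union.1 hk with hk | hk
  · rw [hx k hk, hx0]
  · rw [hb k hk, hx0, mul_zero]

/-- Rows of prescribed weights that determine the values on all parts. -/
theorem parts_rows [Fintype Λ] {ρ : Type*} [DecidableEq ρ] (hPQ : Disjoint P Q)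
    (hP : ∀ k ∈ P, w k = 1) (hQ : ∀ k ∈ Q, w k ≤ g) (hM : P.card + ∑ k ∈ Q, w k = M)
    (hg : 2 * g ≤ P.card + 1) (hp : 2 ≤ P.card) (hg1 : 1 ≤ g) (d : ρ → ℕ) (R L : Finset ρ)
    (hRL : Disjoint R L) (hR : R.card = P.card) (hL : L.card = Q.card)
    (hdR : ∀ n ∈ R, 1 ≤ d n ∧ d n + 1 ≤ M) (hdL : ∀ n ∈ L, g ≤ d n ∧ d n + g ≤ M) :
    ∃ Z : ρ → Finset Λ, (∀ n ∈ R ∪ L, ∑ k ∈ Z n, w k = d n) ∧
      ∀ ξ : Λ → ℝ, (∀ k ∉ P ∪ Q, ξ k = 0) → (∀ n ∈ R ∪ L, sm (Z n) ξ = 0) → ξ = 0 := by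
  let W0 : Submodule ℝ (Λ → ℝ) :=
    { carrier := {ξ | ∀ k ∉ P ∪ Q, ξ k = 0}
      add_mem' := fun ha hb k hk => by simp [ha k hk, hb k hk]
      zero_mem' := fun _ _ => rfl
      smul_mem' := fun c _ ha k hk => by simp [ha k hk] }
  let A : ρ → Finset Λ → Prop := fun n S => S ⊆ P ∪ Q ∧ ∑ k ∈ S, w k = d n
  obtain ⟨Z1, hZ1, W1, hW1, hr1, hk1⟩ := greedy A Q.card R W0
    ((finrank_le_of_inj W0 (P ∪ Q) fun ξ hξ h => funext fun k => by
      by_cases hk : k ∈ P ∪ Q
      · exact h k hk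
      · exact hξ k hk).trans (by rw [card_union_of_disjoint hPQ]; omega))
    (fun n hn => exists_row hPQ hP hQ hM hg hp (hdR n hn).1 (hdR n hn).2)
    (fun n hn W' hW' hlt => by
      by_contra hc
      push Not at hc
      refine absurd (finrank_le_of_inj W' Q fun ξ hξ h => funext fun k => ?_) (by omega)
      have h1 := parts_one hPQ hP hQ hM hg hp (hdR n hn).1 (hdR n hn).2 ξ
        (fun S a b => hc S ⟨a, b⟩ ξ hξ) h
      by_cases hk : k ∈ P ∪ Q
      · rcases mem_union.1 hk with hk | hk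
        · exact h1 k hk
        · exact h k hk
      · exact hW' hξ k hk)
  obtain ⟨Z2, hZ2, W2, -, hr2, hk2⟩ := greedy A 0 L W1 (by omega)
    (fun n hn => exists_row hPQ hP hQ hM hg hp (by have := hdL n hn; omega)
      (by have := hdL n hn; omega))
    (fun n hn W' hW' hlt => by
      by_contra hc
      push Not at hc
      refine absurd (finrank_le_of_inj W' ∅ fun ξ hξ _ => funext fun k => ?_) (by simpa using hlt.ne')
      have h1 := parts_two hPQ hP hQ hM hg hp hg1 (hdL n hn).1 (hdL n hn).2 ξ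
        (fun S a b => hc S ⟨a, b⟩ ξ hξ)
      by_cases hk : k ∈ P ∪ Q
      · exact h1 k hk
      · exact hW1 (hW' hξ) k hk)
  have hne : ∀ n ∈ L, n ∉ R := fun n hn h => disjoint_left.1 hRL h hn
  refine ⟨fun n => if n ∈ R then Z1 n else Z2 n, fun n hn => ?_, fun ξ hξ h => ?_⟩
  · by_cases h : n ∈ R
    · simpa [h] using (hZ1 n h).2
    · simpa [h] using (hZ2 n ((mem_union.1 hn).resolve_left h)).2
  · have h1 := hk1 ξ hξ fun n hn => by simpa [hn] using h n (mem_union_left _ hn)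
    have h2 := hk2 ξ h1 fun n hn => by simpa [hne n hn] using h n (mem_union_right _ hn)
    have : W2 = ⊥ := Submodule.finrank_eq_zero.1 (by omega)
    simpa [this] using h2

end Parts

/-- Subsets of prescribed sizes that cut a space of functions down to zero. -/
theorem atoms_rows {Λ ρ : Type*} [Fintype Λ] [DecidableEq Λ] [DecidableEq ρ] (B : Finset Λ)
    (W : Submodule ℝ (Λ → ℝ)) (hW : ∀ ξ ∈ W, ∀ k ∉ B, ξ k = 0) (e : ρ → ℕ) (R : Finset ρ)
    (hr : finrank ℝ W ≤ R.card) (he : ∀ n ∈ R, 1 ≤ e n ∧ e n + 1 ≤ B.card) :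
    ∃ J : ρ → Finset Λ, (∀ n ∈ R, J n ⊆ B ∧ (J n).card = e n) ∧
      ∀ ξ ∈ W, (∀ n ∈ R, sm (J n) ξ = 0) → ξ = 0 := by
  obtain ⟨J, hJ, W2, -, hr2, hk2⟩ := greedy (fun n S => S ⊆ B ∧ S.card = e n) 0 R W (by omega)
    (fun n hn => exists_subset_card_eq (by have := he n hn; omega))
    (fun n hn W' hW' hlt => by
      by_contra hc
      push Not at hc
      refine absurd (finrank_le_of_inj W' ∅ fun ξ hξ _ => funext fun k => ?_) (by simpa using hlt.ne')
      have h0 := he n hn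
      have h1 := parts_one (P := B) (Q := ∅) (w := fun _ => 1) (g := 0) (M := B.card) (d := e n)
        (by simp) (by simp) (by simp) (by simp) (by omega) (by omega) h0.1 h0.2 ξ
        (fun S a b => hc S ⟨by simpa using a, by simpa using b⟩ ξ hξ) (by simp)
      by_cases hk : k ∈ B
      · exact h1 k hk
      · exact hW ξ (hW' hξ) k hk)
  refine ⟨J, hJ, fun ξ hξ h => ?_⟩
  have : W2 = ⊥ := Submodule.finrank_eq_zero.1 (by omega)
  simpa [this] using hk2 ξ hξ h

/-- Cutting the classes into groups of size at most `a + 1`. -/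
theorem chunk {ρ : Type*} [DecidableEq ρ] (c : ρ → ℕ) (a : ℕ) : ∀ (m : ℕ) (S : Finset ρ),
    S.card = m → ∃ AN ⊆ S, ∃ an : ρ → ρ, (∀ n ∈ S, an n ∈ AN ∧ c (an n) = c n) ∧
      (∀ τ ∈ AN, an τ = τ) ∧ (∀ τ, (S.filter fun n => an n = τ).card ≤ a + 1) ∧
      (a + 1) * AN.card ≤ a * (S.image c).card + S.card := by
  intro m
  induction m using Nat.strong_induction_on with
  | _ m ih =>
    intro S hS
    rcases S.eq_empty_or_nonempty with rfl | ⟨n0, hn0⟩
    · exact ⟨∅, Subset.rfl, id, by simp, by simp, by simp, by simp⟩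
    have : ∃ D ⊆ S.filter (fun n => c n = c n0), n0 ∈ D ∧ D.card ≤ a + 1 ∧
        a * ((S \ D).image c).card + (S \ D).card + (a + 1) ≤ a * (S.image c).card + S.card := by
      by_cases h : (S.filter fun n => c n = c n0).card ≤ a + 1
      · refine ⟨_, Subset.rfl, by simpa using hn0, h, ?_⟩
        have h1 : ((S \ S.filter fun n => c n = c n0).image c).card + 1 ≤ (S.image c).card := by
          refine card_lt_card ⟨image_subset_image sdiff_subset, fun h => ?_⟩
          obtain ⟨n, hn, e⟩ := mem_image.1 (h (mem_image_of_mem c hn0))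
          rw [mem_sdiff, mem_filter] at hn
          exact hn.2 ⟨hn.1, e⟩
        have h2 : (S \ S.filter fun n => c n = c n0).card + 1 ≤ S.card :=
          card_lt_card ⟨sdiff_subset, fun h => by simpa [hn0] using h hn0⟩
        have := Nat.mul_le_mul_left a h1
        rw [Nat.mul_add] at this
        omega
      · obtain ⟨D, h1, h2, h3⟩ := exists_subsuperset_card_eq
          (s := {n0}) (t := S.filter fun n => c n = c n0) (n := a + 1)
          (by simpa using hn0) (by simp) (by omega)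
        refine ⟨D, h2, by simpa using h1, h3.le, ?_⟩
        have h4 := card_sdiff_add_card_eq_card (h2.trans (filter_subset _ _))
        have := Nat.mul_le_mul_left a (card_le_card (image_subset_image (f := c)
          (sdiff_subset : S \ D ⊆ S)))
        omega
    obtain ⟨D, hD, hn0D, hDc, hle⟩ := this
    have hlt : (S \ D).card < m := by
      rw [← hS]
      exact card_lt_card ⟨sdiff_subset, fun h => by simpa [hn0D] using h hn0⟩
    obtain ⟨AN, hAN, an, h1, h2, h3, h4⟩ := ih _ hlt (S \ D) rfl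
    have hn0A : n0 ∉ AN := fun h => by simpa [hn0D] using hAN h
    refine ⟨insert n0 AN, insert_subset hn0 (hAN.trans sdiff_subset),
      fun n => if n ∈ D then n0 else an n, fun n hn => ?_, fun τ hτ => ?_, fun τ => ?_, ?_⟩
    · by_cases h : n ∈ D
      · simpa [h] using ((mem_filter.1 (hD h)).2).symm
      · have := h1 n (mem_sdiff.2 ⟨hn, h⟩)
        simpa [h] using ⟨Or.inr this.1, this.2⟩
    · rcases mem_insert.1 hτ with rfl | hτ
      · simp [hn0D]
      · simpa [(mem_sdiff.1 (hAN hτ)).2] using h2 τ hτ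
    · by_cases h : τ = n0
      · refine le_trans (card_le_card fun n hn => ?_) hDc
        rw [mem_filter] at hn
        by_contra hnD
        have := (h1 n (mem_sdiff.2 ⟨hn.1, hnD⟩)).1
        have e := hn.2
        simp only [hnD, if_false] at e
        exact hn0A (h ▸ e ▸ this)
      · refine le_trans (card_le_card fun n hn => ?_) (h3 τ)
        rw [mem_filter] at hn ⊢
        by_cases hnD : n ∈ D
        · exact absurd (by simpa [hnD] using hn.2.symm) h
        · exact ⟨mem_sdiff.2 ⟨hn.1, hnD⟩, by simpa [hnD] using hn.2⟩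
    · rw [card_insert_of_notMem hn0A, Nat.mul_add]
      omega

/-- The distribution of the rows. -/
structure Plan {ρ : Type*} [Fintype ρ] [DecidableEq ρ] (M : ℕ) (c : ρ → ℕ) (a g : ℕ)
    (VR AN LD : Finset ρ) (an : ρ → ρ) : Prop where
  d1 : Disjoint VR AN
  d2 : Disjoint VR LD
  d3 : Disjoint AN LD
  card : VR.card + M = Fintype.card ρ
  att : ∀ n ∈ VR, c n ≠ 1 → an n ∈ AN ∧ c (an n) = c n
  two : ∀ τ ∈ AN, 2 ≤ c τ
  fib : ∀ τ ∈ AN, (VR.filter fun n => c n ≠ 1 ∧ an n = τ).card + 1 ≤ a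
  lead : ∀ l ∈ LD, g ≤ c l
  cap : AN.card ≤ LD.card * (g - 1)
  room : a + AN.card + LD.card ≤ M
  hg : 2 * g ≤ a + 1
  g1 : 1 ≤ g
  a2 : 2 ≤ a
  half : 2 * a ≤ M

theorem plan_aux {ρ : Type*} [Fintype ρ] [DecidableEq ρ] (M : ℕ) (c : ρ → ℕ) (hc : ∀ n, 1 ≤ c n)
    (hM : 65 ≤ M) (hN : Fintype.card ρ + 2 ≤ 4 * M)
    (hH : M + (univ.filter fun n => c n = 1).card < Fintype.card ρ) (g κ : ℕ) (LD : Finset ρ)
    (hL : ∀ l ∈ LD, g ≤ c l) (hg2 : 2 ≤ g) (hg : g ≤ 10)
    (hκ : ∀ n ∉ LD, c n ≤ κ + 1) (h1 : κ + 10 ≤ LD.card * (g - 1))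
    (h2 : 2 * M / 7 + 1 + (κ + 10) + LD.card ≤ M) :
    ∃ a g VR AN LD an, Plan M c a g VR AN LD an := by
  set H := univ.filter fun n => ¬c n = 1 with hHd
  have hHc : (univ.filter fun n => c n = 1).card + H.card = Fintype.card ρ := by
    rw [hHd, card_filter_add_card_filter_not, card_univ]
  have hLH : LD ⊆ H := fun l hl => by
    have := hL l hl
    simp only [hHd, mem_filter, mem_univ, true_and]
    omega
  have e1 := card_sdiff_add_card_eq_card hLH
  obtain ⟨S, hS, hSc⟩ := exists_subset_card_eq (s := H \ LD) (n := H.card - M + κ + 10) (by omega)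
  have hS2 : ∀ n ∈ S, 2 ≤ c n ∧ n ∉ LD := by
    intro n hn
    have := mem_sdiff.1 (hS hn)
    have h3 := hc n
    have h4 : ¬c n = 1 := by simpa [hHd] using this.1
    exact ⟨by omega, this.2⟩
  obtain ⟨AN, hAN, an, a1, a2, a3, a4⟩ := chunk c (2 * M / 7) _ S rfl
  have hi : (S.image c).card ≤ κ := by
    have : S.image c ⊆ Icc 2 (κ + 1) := by
      intro x hx
      obtain ⟨n, hn, rfl⟩ := mem_image.1 hx
      exact mem_Icc.2 ⟨(hS2 n hn).1, hκ n (hS2 n hn).2⟩
    simpa using card_le_card this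
  have hq : AN.card ≤ κ + 10 := by
    by_contra hq
    have b1 := Nat.mul_le_mul_left (2 * M / 7 + 1) (show κ + 11 ≤ AN.card by omega)
    have b2 := Nat.mul_le_mul_left (2 * M / 7) hi
    have b3 : (2 * M / 7 + 1) * (κ + 11) = 2 * M / 7 * κ + κ + 11 * (2 * M / 7 + 1) := by ring
    omega
  have e2 := card_sdiff_add_card_eq_card hAN
  obtain ⟨V, hV, hVc⟩ := exists_subset_card_eq (s := S \ AN) (n := H.card - M) (by omega)
  have hV2 : ∀ n ∈ V, n ∈ S ∧ n ∉ AN := fun n hn => mem_sdiff.1 (hV hn)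
  have hd : Disjoint (univ.filter fun n => c n = 1) V := by
    rw [disjoint_left]
    intro n h3 h4
    have := (hS2 n (hV2 n h4).1).1
    have := (mem_filter.1 h3).2
    omega
  have hmem : ∀ n ∈ (univ.filter fun n => c n = 1) ∪ V, c n = 1 ∨ n ∈ V := by
    intro n hn
    simpa using hn
  refine ⟨2 * M / 7 + 1, g, (univ.filter fun n => c n = 1) ∪ V, AN, LD, an, ?_, ?_, ?_, ?_, ?_,
    fun τ hτ => (hS2 τ (hAN hτ)).1, ?_, hL, by omega, by omega, by omega, by omega, by omega,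
    by omega⟩
  · rw [disjoint_left]
    intro n h3 h4
    rcases hmem n h3 with h | h
    · have := (hS2 n (hAN h4)).1
      omega
    · exact (hV2 n h).2 h4
  · rw [disjoint_left]
    intro n h3 h4
    rcases hmem n h3 with h | h
    · have := hL n h4
      omega
    · exact (hS2 n (hV2 n h).1).2 h4
  · rw [disjoint_left]
    exact fun n h3 => (hS2 n (hAN h3)).2
  · rw [card_union_of_disjoint hd]
    omega
  · intro n h3 h4
    exact a1 n (hV2 n ((hmem n h3).resolve_left h4)).1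
  · intro τ hτ
    refine le_trans (card_lt_card ⟨fun n hn => ?_, fun h => ?_⟩) (a3 τ)
    · rw [mem_filter] at hn ⊢
      exact ⟨(hV2 n ((hmem n hn.1).resolve_left hn.2.1)).1, hn.2.2⟩
    · have := mem_filter.1 (h (mem_filter.2 ⟨hAN hτ, a2 τ hτ⟩))
      exact (hV2 τ ((hmem τ this.1).resolve_left this.2.1)).2 hτ

theorem exists_plan {ρ : Type*} [Fintype ρ] [DecidableEq ρ] (M : ℕ) (c : ρ → ℕ)
    (hc : ∀ n, 1 ≤ c n ∧ 2 * c n ≤ M) (hM : 65 ≤ M) (hN1 : M ≤ Fintype.card ρ)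
    (hN : Fintype.card ρ + 2 ≤ 4 * M) : ∃ a g VR AN LD an, Plan M c a g VR AN LD an := by
  by_cases hH : M + (univ.filter fun n => c n = 1).card < Fintype.card ρ
  swap
  · obtain ⟨V, hV, hVc⟩ := exists_subset_card_eq (s := univ.filter fun n => c n = 1)
      (n := Fintype.card ρ - M) (by omega)
    exact ⟨2, 1, V, ∅, ∅, id, by simp, by simp, by simp, by omega,
      fun n hn h => absurd (mem_filter.1 (hV hn)).2 h, by simp, by simp, by simp, by simp,
      by simp; omega, by omega, le_rfl, le_rfl, by omega⟩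
  by_cases h1 : (M / 2 + 17) / 9 ≤ (univ.filter fun n => 10 ≤ c n).card
  · obtain ⟨L, hL, hLc⟩ := exists_subset_card_eq h1
    refine plan_aux M c (fun n => (hc n).1) hM hN hH 10 (M / 2 - 1) L
      (fun l hl => (mem_filter.1 (hL hl)).2) (by omega) le_rfl (fun n _ => ?_) (by omega) (by omega)
    have := hc n
    omega
  · have hHc := card_filter_add_card_filter_not (s := (univ : Finset ρ)) fun n => c n = 1
    rw [card_univ] at hHc
    obtain ⟨L, h2, h3, h4⟩ := exists_subsuperset_card_eq (s := univ.filter fun n => 10 ≤ c n)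
      (t := univ.filter fun n => ¬c n = 1) (n := 18 + (M / 2 + 17) / 9)
      (fun n hn => by
        have := (mem_filter.1 hn).2
        simp only [mem_filter, mem_univ, true_and]
        omega) (by omega) (by omega)
    refine plan_aux M c (fun n => (hc n).1) hM hN hH 2 8 L (fun l hl => ?_) le_rfl (by omega)
      (fun n hn => ?_) (by omega) (by omega)
    · have := (mem_filter.1 (h3 hl)).2
      have := hc l
      omega
    · by_contra h
      exact hn (h2 (mem_filter.2 ⟨mem_univ _, by omega⟩))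

end Pool.Agent.Work.MP_d1ad45_an.L
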