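import Mathlib

/-!
Families of quadratic forms on `ℂ^M` that determine a vector up to a unimodular scalar,
openness of this property, and matrices of orthogonal projections.
-/

namespace Pool.Agent.Work.MP_d1ad45_an.L

open Filter Topology Matrix ComplexConjugate

abbrev Mat (M : ℕ) := Matrix (Fin M) (Fin M) ℂ
abbrev Vec (M : ℕ) := Fin M → ℂ

variable {M : ℕ}

noncomputable def bf (P : Mat M) (u v : Vec M) : ℝ := (star u ⬝ᵥ P *ᵥ v).re

def Good {ι : Type*} (F : ι → Mat M) : Prop :=
  ∀ x y, (∀ i, bf (F i) x x = bf (F i) y y) → ∃ c : ℂ, ‖c‖ = 1 ∧ x = c • y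

def GoodV {ι : Type*} (φ : ι → Vec M) : Prop :=
  ∀ x y, (∀ i, ‖star (φ i) ⬝ᵥ x‖ = ‖star (φ i) ⬝ᵥ y‖) → ∃ c : ℂ, ‖c‖ = 1 ∧ x = c • y

theorem bf_pol (P : Mat M) (u v : Vec M) :
    bf P (u + v) (u + v) - bf P (u - v) (u - v) = 2 * (bf P u v + bf P v u) := by
  simp only [bf, star_add, star_sub, mulVec_add, mulVec_sub, add_dotProduct, sub_dotProduct,
    dotProduct_add, dotProduct_sub, Complex.add_re, Complex.sub_re]
  ring

theorem bf_smul (P : Mat M) (a b : ℝ) (u v : Vec M) : bf P (a • u) (b • v) = a * b * bf P u v := by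
  simp only [bf, star_smul, mulVec_smul, smul_dotProduct, dotProduct_smul, star_trivial,
    Complex.smul_re, smul_eq_mul]
  ring

theorem bf_unit (P : Mat M) (c : ℂ) (hc : ‖c‖ = 1) (u : Vec M) :
    bf P (c • u) (c • u) = bf P u u := by
  have : conj c * c = 1 := by
    rw [Complex.conj_mul', hc]; simp
  simp only [bf, star_smul, mulVec_smul, smul_dotProduct, dotProduct_smul, smul_eq_mul,
    Complex.star_def]
  rw [← mul_assoc, mul_comm c, this, one_mul]

theorem bf_add (P Q : Mat M) (u v : Vec M) : bf (P + Q) u v = bf P u v + bf Q u v := by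
  simp [bf, add_mulVec]

theorem bf_sub (P Q : Mat M) (u v : Vec M) : bf (P - Q) u v = bf P u v - bf Q u v := by
  simp [bf, sub_mulVec]

theorem ip_im_swap (u v : Vec M) : (star v ⬝ᵥ u).im = -(star u ⬝ᵥ v).im := by
  rw [star_dotProduct]; simp

theorem ip_im_self (u : Vec M) : (star u ⬝ᵥ u).im = 0 := by
  have := ip_im_swap u u
  linarith

open ComplexOrder in
theorem ip_re_self {u : Vec M} (h : (star u ⬝ᵥ u).re = 0) : u = 0 := by
  rw [← dotProduct_star_self_eq_zero (v := u)]
  exact Complex.ext h (ip_im_self u)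

theorem good_iff {ι : Type*} (F : ι → Mat M) : Good F ↔ ∀ u v : Vec M, (star u ⬝ᵥ v).im = 0 →
    (∀ i, bf (F i) u v + bf (F i) v u = 0) → u = 0 ∨ v = 0 := by
  constructor
  · intro h u v huv hn
    obtain ⟨c, hc, e⟩ := h (u + v) (u - v) fun n => by
      have := bf_pol (F n) u v
      rw [hn n] at this
      linarith
    by_cases hy : u - v = 0
    · left
      rw [hy, smul_zero] at e
      have : (2 : ℂ) • u = (u + v) + (u - v) := by module
      rw [e, hy, add_zero] at this
      simpa using this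
    have h1 : (star (u - v) ⬝ᵥ (u + v)).im = 0 := by
      simp only [star_sub, sub_dotProduct, dotProduct_add, Complex.sub_im, Complex.add_im,
        ip_im_self, ip_im_swap u v, huv]
      ring
    have h2 : c.im = 0 := by
      rw [e, dotProduct_smul, smul_eq_mul, Complex.mul_im, ip_im_self, mul_zero, zero_add,
        mul_eq_zero] at h1
      exact h1.resolve_right fun h => hy (ip_re_self h)
    have h3 : c.re * c.re = 1 := by
      have := Complex.normSq_eq_norm_sq c
      rw [hc, Complex.normSq_apply, h2] at this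
      linarith
    rcases mul_self_eq_one_iff.1 h3 with h4 | h4
    · right
      have : c = 1 := Complex.ext h4 h2
      rw [this, one_smul] at e
      have : (2 : ℂ) • v = (u + v) - (u - v) := by module
      rw [e, sub_self] at this
      simpa using this
    · left
      have : c = -1 := Complex.ext (by simpa using h4) (by simpa using h2)
      rw [this] at e
      have : (2 : ℂ) • u = (u + v) + (u - v) := by module
      rw [e] at this
      simpa using this
  · intro h x y hn
    obtain ⟨c, hc, e⟩ := Complex.exists_norm_eq_mul_self (star x ⬝ᵥ y)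
    have e' : (star x ⬝ᵥ (c • y)).im = 0 := by
      rw [dotProduct_smul, smul_eq_mul, ← e]; simp
    have hr : ∀ i, bf (F i) (c • y) (c • y) = bf (F i) y y := fun i => bf_unit _ c hc y
    generalize hz : c • y = z at e' hr
    rcases h (x + z) (x - z) (by
      simp only [star_add, add_dotProduct, dotProduct_sub, Complex.sub_im, Complex.add_im,
        ip_im_self, ip_im_swap x z, e']
      ring) (fun n => by
      have h1 := bf_pol (F n) (x + z) (x - z)
      have h2 : x + z + (x - z) = (2 : ℝ) • x := by module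
      have h3 : x + z - (x - z) = (2 : ℝ) • z := by module
      rw [h2, h3, bf_smul, bf_smul, hr, hn] at h1
      linarith) with h1 | h1
    · exact ⟨-c, by simpa using hc, by rw [neg_smul, hz]; exact eq_neg_of_add_eq_zero_left h1⟩
    · exact ⟨c, hc, by rw [hz]; exact sub_eq_zero.1 h1⟩

theorem bf_cont : Continuous fun p : Mat M × Vec M × Vec M => bf p.1 p.2.1 p.2.2 := by
  simp only [bf, dotProduct, mulVec, Pi.star_apply]
  fun_prop

theorem good_ev {ι : Type*} (F : ℝ → ι → Mat M) (hF : ∀ i, ContinuousAt (fun e => F e i) 0)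
    (h0 : Good (F 0)) : ∀ᶠ e in 𝓝 (0 : ℝ), Good (F e) := by
  have hK : IsCompact (Metric.sphere (0 : Vec M) 1 ×ˢ Metric.sphere (0 : Vec M) 1) :=
    (isCompact_sphere _ _).prod (isCompact_sphere _ _)
  have := hK.eventually_forall_of_forall_eventually (x₀ := (0 : ℝ))
    (P := fun e z => (star z.1 ⬝ᵥ z.2).im ≠ 0 ∨
      ∃ i, bf (F e i) z.1 z.2 + bf (F e i) z.2 z.1 ≠ 0) (by
      rintro ⟨u, v⟩ ⟨hu, hv⟩
      by_cases h1 : (star u ⬝ᵥ v).im = 0
      · have : ∃ i, bf (F 0 i) u v + bf (F 0 i) v u ≠ 0 := by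
          by_contra hc
          push Not at hc
          rcases (good_iff _).1 h0 u v h1 hc with rfl | rfl
          · simp at hu
          · simp at hv
        obtain ⟨i, hi⟩ := this
        have c0 : ContinuousAt (fun z : ℝ × Vec M × Vec M => F z.1 i) (0, u, v) :=
          (hF i).comp_of_eq continuousAt_fst rfl
        have c1 : ContinuousAt (fun z : ℝ × Vec M × Vec M => bf (F z.1 i) z.2.1 z.2.2) (0, u, v) :=
          bf_cont.continuousAt.comp (f := fun z : ℝ × Vec M × Vec M => (F z.1 i, z.2.1, z.2.2))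
            (c0.prodMk (by fun_prop))
        have c2 : ContinuousAt (fun z : ℝ × Vec M × Vec M => bf (F z.1 i) z.2.2 z.2.1) (0, u, v) :=
          bf_cont.continuousAt.comp (f := fun z : ℝ × Vec M × Vec M => (F z.1 i, z.2.2, z.2.1))
            (c0.prodMk (by fun_prop))
        filter_upwards [(c1.add c2).eventually_ne hi] with z hz
        exact Or.inr ⟨i, hz⟩
      · have c1 : ContinuousAt (fun z : ℝ × Vec M × Vec M => (star z.2.1 ⬝ᵥ z.2.2).im) (0, u, v) := by
          simp only [dotProduct, Pi.star_apply]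
          fun_prop
        filter_upwards [c1.eventually_ne h1] with z hz
        exact Or.inl hz)
  filter_upwards [this] with e he
  rw [good_iff]
  intro u v h1 h2
  by_contra hne
  push Not at hne
  rcases he (‖u‖⁻¹ • u, ‖v‖⁻¹ • v) ⟨by simp [norm_smul, hne.1], by simp [norm_smul, hne.2]⟩
    with h | ⟨i, h⟩
  · apply h
    simp [star_smul, h1]
  · apply h
    simp only [bf_smul]
    linear_combination ‖u‖⁻¹ * ‖v‖⁻¹ * h2 i

theorem bf_one (w x : Vec M) : bf (vecMulVec w (star w)) x x = ‖star w ⬝ᵥ x‖ ^ 2 := by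
  rw [bf, vecMulVec_mulVec, dotProduct_smul, star_dotProduct x w, ← Complex.normSq_eq_norm_sq]
  simp [Complex.normSq_apply]

theorem goodV_iff {ι : Type*} (φ : ι → Vec M) :
    GoodV φ ↔ Good fun i => vecMulVec (φ i) (star (φ i)) := by
  simp only [GoodV, Good, bf_one]
  refine forall₂_congr fun x y => imp_congr_left (forall_congr' fun i => ?_)
  exact (pow_left_inj₀ (norm_nonneg _) (norm_nonneg _) two_ne_zero).symm

/-- Hermitian idempotent of trace `d`. -/
def IsPr (P : Mat M) (d : ℕ) : Prop := P * P = P ∧ Pᴴ = P ∧ P.trace = d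

theorem IsPr.add {P Q : Mat M} {d e : ℕ} (hP : IsPr P d) (hQ : IsPr Q e) (h : P * Q = 0) :
    IsPr (P + Q) (d + e) := by
  have h' : Q * P = 0 := by
    have := congrArg conjTranspose h
    rwa [conjTranspose_mul, hP.2.1, hQ.2.1, conjTranspose_zero] at this
  refine ⟨?_, ?_, ?_⟩
  · rw [Matrix.add_mul, Matrix.mul_add, Matrix.mul_add, hP.1, hQ.1, h, h']; simp
  · rw [conjTranspose_add, hP.2.1, hQ.2.1]
  · rw [trace_add, hP.2.2, hQ.2.2]; simp

theorem IsPr.compl {P : Mat M} {d e : ℕ} (hP : IsPr P d) (h : d + e = M) : IsPr (1 - P) e := by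
  refine ⟨?_, ?_, ?_⟩
  · rw [Matrix.sub_mul, Matrix.mul_sub, Matrix.mul_sub, hP.1]; simp
  · rw [conjTranspose_sub, hP.2.1, conjTranspose_one]
  · rw [trace_sub, hP.2.2, trace_one, Fintype.card_fin, ← h]; simp

theorem isPr_zero : IsPr (0 : Mat M) 0 := ⟨by simp, by simp, by simp⟩

/-- Coordinate projection. -/
def cp (Z : Finset (Fin M)) : Mat M := diagonal fun k => if k ∈ Z then 1 else 0

theorem isPr_cp (Z : Finset (Fin M)) : IsPr (cp Z) Z.card := by
  refine ⟨?_, ?_, ?_⟩
  · rw [cp, diagonal_mul_diagonal]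
    congr 1
    funext k
    split_ifs <;> simp
  · rw [cp, diagonal_conjTranspose]
    congr 1
    funext k
    simp only [Pi.star_apply]
    split_ifs <;> simp
  · simp [cp]

theorem bf_cp (Z : Finset (Fin M)) (x : Vec M) : bf (cp Z) x x = ∑ k ∈ Z, ‖x k‖ ^ 2 := by
  have : ∀ k, (star x k * (cp Z *ᵥ x) k).re = if k ∈ Z then ‖x k‖ ^ 2 else 0 := by
    intro k
    rw [cp, mulVec_diagonal]
    split_ifs
    · simp [← Complex.normSq_eq_norm_sq, Complex.normSq_apply]
    · simp
  rw [bf, dotProduct, Complex.re_sum]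
  simp only [this]
  simp [Finset.sum_ite_mem]

theorem bf_id (x : Vec M) : bf 1 x x = ∑ k, ‖x k‖ ^ 2 := by
  rw [← bf_cp]
  simp [cp]

/-- Projection onto the column space. -/
noncomputable def pr {κ : Type*} [Fintype κ] [DecidableEq κ] (Ψ : Matrix (Fin M) κ ℂ) : Mat M :=
  Ψ * (Ψᴴ * Ψ)⁻¹ * Ψᴴ

theorem isPr_pr {κ : Type*} [Fintype κ] [DecidableEq κ] (Ψ : Matrix (Fin M) κ ℂ)
    (h : IsUnit (Ψᴴ * Ψ).det) : IsPr (pr Ψ) (Fintype.card κ) := by
  refine ⟨?_, ?_, ?_⟩
  · have : pr Ψ * pr Ψ = Ψ * ((Ψᴴ * Ψ)⁻¹ * (Ψᴴ * Ψ)) * (Ψᴴ * Ψ)⁻¹ * Ψᴴ := by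
      simp only [pr, Matrix.mul_assoc]
    rw [this, nonsing_inv_mul _ h, Matrix.mul_one, pr]
  · simp only [pr, conjTranspose_mul, conjTranspose_conjTranspose, conjTranspose_nonsing_inv,
      Matrix.mul_assoc]
  · rw [pr, trace_mul_comm, ← Matrix.mul_assoc, mul_nonsing_inv _ h, trace_one]

/-- Projection onto a line. -/
noncomputable def ln (w : Vec M) : Mat M := (star w ⬝ᵥ w)⁻¹ • vecMulVec w (star w)

theorem ip_ne {w : Vec M} (hw : w ≠ 0) : star w ⬝ᵥ w ≠ 0 := fun h =>
  hw (ip_re_self (by rw [h]; rfl))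

theorem isPr_ln {w : Vec M} (hw : w ≠ 0) : IsPr (ln w) 1 := by
  have h0 := ip_ne hw
  refine ⟨?_, ?_, ?_⟩
  · rw [ln, Matrix.smul_mul, Matrix.mul_smul, vecMulVec_mul_vecMulVec]
    ext i j
    simp only [Matrix.smul_apply, vecMulVec_apply, Pi.smul_apply, smul_eq_mul]
    field_simp
  · rw [ln, conjTranspose_smul, conjTranspose_vecMulVec, star_star, star_inv₀, ← star_dotProduct]
  · rw [ln, trace_smul, trace_vecMulVec, dotProduct_comm w, smul_eq_mul, inv_mul_cancel₀ h0]
    simp

theorem bf_ln (w x : Vec M) :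
    bf (ln w) x x = ((star w ⬝ᵥ w).re)⁻¹ * ‖star w ⬝ᵥ x‖ ^ 2 := by
  have h : star w ⬝ᵥ w = (((star w ⬝ᵥ w).re : ℝ) : ℂ) := Complex.ext rfl (by simp [ip_im_self])
  rw [← bf_one, ln, h]
  simp only [bf, smul_mulVec, dotProduct_smul, smul_eq_mul, ← Complex.ofReal_inv,
    Complex.re_ofReal_mul, Complex.ofReal_re]

theorem mul_ln {P : Mat M} {w : Vec M} (h : P *ᵥ w = 0) : P * ln w = 0 := by
  rw [ln, Matrix.mul_smul, mul_vecMulVec, h]
  simp

theorem exists_subspace {P : Mat M} {d : ℕ} (hP : IsPr P d) :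
    ∃ W : Submodule ℂ (EuclideanSpace ℂ (Fin M)), Module.finrank ℂ W = d ∧
      ∀ x, ‖W.starProjection x‖ ^ 2 = bf P x.ofLp x.ofLp := by
  let f := Matrix.toEuclideanLin P
  have hff : ∀ x, f (f x) = f x := by
    intro x
    change WithLp.toLp 2 (P *ᵥ (P *ᵥ x.ofLp)) = WithLp.toLp 2 (P *ᵥ x.ofLp)
    rw [Matrix.mulVec_mulVec, hP.1]
  have hs : f.IsSymmetric := Matrix.isSymmetric_toEuclideanLin_iff.2 hP.2.1
  refine ⟨LinearMap.range f, ?_, fun x => ?_⟩
  · have h1 := (LinearMap.IsIdempotentElem.isProj_range f (LinearMap.ext hff)).trace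
    have h2 : LinearMap.trace ℂ _ f = P.trace := by
      simp only [f, Matrix.toEuclideanLin_eq_toLin_orthonormal, Matrix.trace_toLin_eq]
    rw [h2, hP.2.2] at h1
    exact_mod_cast h1.symm
  · have h1 : (LinearMap.range f).starProjection x = f x := by
      refine Submodule.eq_starProjection_of_mem_of_inner_eq_zero ⟨x, rfl⟩ ?_
      rintro _ ⟨y, rfl⟩
      rw [← hs, map_sub, hff, sub_self, inner_zero_left]
    rw [h1, bf, ← inner_self_eq_norm_sq (𝕜 := ℂ), hs, hff,
      EuclideanSpace.inner_eq_star_dotProduct, dotProduct_comm]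
    rfl

end Pool.Agent.Work.MP_d1ad45_an.L
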