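import Pool.Agent.Work.MP_d1ad45_an.L.Form

/-!
A family of vectors doing phase retrieval can be moved to one that contains the standard basis
and in which any `M` members are linearly independent.
-/

namespace Pool.Agent.Work.MP_d1ad45_an.L

open Filter Topology Matrix Polynomial Module

variable {M : ℕ}

theorem GoodV.card_le {ι : Type*} [Fintype ι] {φ : ι → Vec M} (h : GoodV φ) :
    M ≤ Fintype.card ι := by
  let A : Matrix ι (Fin M) ℂ := Matrix.of fun i => star (φ i)
  have : Function.Injective A.mulVecLin := by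
    rw [← LinearMap.ker_eq_bot, LinearMap.ker_eq_bot']
    intro x hx
    obtain ⟨c, -, e⟩ := h x 0 fun i => by
      have : star (φ i) ⬝ᵥ x = 0 := congrFun hx i
      simp [this]
    simpa using e
  simpa using LinearMap.finrank_le_finrank_of_injective this

theorem det_ev {m : ℕ} (A B : Matrix (Fin m) (Fin m) ℂ) (hA : A.det ≠ 0) :
    ∀ᶠ r : ℝ in 𝓝[≠] 0, ((r : ℂ) • A + B).det ≠ 0 := by
  set p := det ((X : ℂ[X]) • A.map C + B.map C) with hp
  have h0 : p ≠ 0 := fun e => hA (by rw [← coeff_det_X_add_C_card A B, ← hp, e, coeff_zero])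
  have h1 : {r : ℝ | p.IsRoot r}.Finite :=
    (finite_setOfPred_isRoot h0).preimage (f := fun r : ℝ => (r : ℂ))
      Complex.ofReal_injective.injOn
  filter_upwards [nhdsNE_le_cofinite (0 : ℝ) h1.compl_mem_cofinite] with r hr e
  apply hr
  change (evalRingHom (r : ℂ)) p = 0
  rw [hp, RingHom.map_det, ← e]
  congr 1
  ext i j
  simp only [RingHom.mapMatrix_apply, map_apply, Matrix.add_apply, Matrix.smul_apply, smul_eq_mul,
    coe_evalRingHom, eval_add, eval_mul, eval_X, eval_C]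

theorem exists_spark {ι : Type*} [Fintype ι] {φ : ι → Vec M} (h : GoodV φ) :
    ∃ φ' : ι → Vec M, GoodV φ' ∧
      ∀ s : Finset ι, s.card ≤ M → LinearIndependent ℂ fun i : s => φ' i := by
  let z : ι → ℂ := fun i => ((Fintype.equivFin ι i : ℕ) : ℂ)
  have hz : Function.Injective z := fun i j e =>
    (Fintype.equivFin ι).injective (Fin.ext (Nat.cast_injective (R := ℂ) e))
  let φr : ℝ → ι → Vec M := fun r i k => (r : ℂ) * z i ^ (k : ℕ) + φ i k
  have h1 : ∀ᶠ r in 𝓝 (0 : ℝ), GoodV (φr r) := by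
    simp only [goodV_iff]
    refine good_ev (fun r i => vecMulVec (φr r i) (star (φr r i))) (fun i => ?_) ?_
    · refine Continuous.continuousAt (continuous_matrix fun a b => ?_)
      simp only [vecMulVec_apply, Pi.star_apply, φr]
      fun_prop
    · rw [← goodV_iff]
      simpa [φr] using h
  have h2 : ∀ s : Finset ι, ∀ᶠ r in 𝓝[≠] (0 : ℝ),
      s.card ≤ M → LinearIndependent ℂ fun i : s => φr r i := by
    intro s
    by_cases hs : s.card ≤ M
    swap
    · exact Eventually.of_forall fun _ h => absurd h hs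
    let e := s.equivFin.symm
    filter_upwards [det_ev (vandermonde fun i => z (e i))
      (Matrix.of fun i j => φ (e i) (Fin.castLE hs j))
      (det_vandermonde_ne_zero_iff.2 (hz.comp (Subtype.val_injective.comp e.injective)))]
      with r hr _
    rw [← linearIndependent_equiv e]
    exact LinearIndependent.of_comp (LinearMap.funLeft ℂ ℂ (Fin.castLE hs))
      (linearIndependent_rows_of_det_ne_zero hr)
  obtain ⟨r, a, b⟩ := ((h1.filter_mono nhdsWithin_le_nhds).and (eventually_all.2 h2)).exists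
  exact ⟨φr r, a, b⟩

theorem ip_mulVec (T : Mat M) (w x : Vec M) : star (T *ᵥ w) ⬝ᵥ x = star w ⬝ᵥ Tᴴ *ᵥ x := by
  rw [star_mulVec, dotProduct_mulVec]

theorem GoodV.map {ι : Type*} {φ : ι → Vec M} (h : GoodV φ) {T : Mat M} (hT : IsUnit T) :
    GoodV fun i => T *ᵥ φ i := by
  intro x y hxy
  obtain ⟨c, hc, e⟩ := h (Tᴴ *ᵥ x) (Tᴴ *ᵥ y) fun i => by simpa only [ip_mulVec] using hxy i
  refine ⟨c, hc, ?_⟩
  rw [← mulVec_smul] at e
  exact mulVec_injective_of_isUnit ((isUnit_conjTranspose T).2 hT) e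

/-- The normalised family: standard basis and further vectors `ψ`. -/
theorem exists_frame {κ : Type*} [Fintype κ] [DecidableEq κ] {φ : Fin M ⊕ κ → Vec M}
    (h : GoodV φ) (hM : 1 ≤ M) :
    ∃ ψ : κ → Vec M, GoodV (Sum.elim (fun k => Pi.single k 1) ψ) ∧ (∀ v, ψ v ≠ 0) ∧
      ∀ (Θ : Finset κ) (C : Finset (Fin M)), Θ.card ≤ C.card → ∀ i, ∃ t : Vec M,
        (∀ k ∉ C, t k = 0) ∧ ∀ v ∈ Θ, star (ψ v) ⬝ᵥ (Pi.single i 1 + t) = 0 := by
  obtain ⟨φ', h1, h2⟩ := exists_spark h
  let G : Mat M := (Matrix.of fun k => φ' (Sum.inl k))ᵀ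
  have hG : IsUnit G := by
    rw [← linearIndependent_cols_iff_isUnit]
    exact (h2 (Finset.univ.map ⟨Sum.inl, Sum.inl_injective⟩) (by simp)).comp
      (fun k => ⟨Sum.inl k, by simp⟩) fun a b e => by simpa using e
  have hG' : IsUnit G⁻¹ := isUnit_nonsing_inv_iff.2 hG
  have e : Sum.elim (fun k => Pi.single k 1) (fun v => G⁻¹ *ᵥ φ' (Sum.inr v)) =
      fun i => G⁻¹ *ᵥ φ' i := by
    funext i
    rcases i with k | v
    · have : φ' (Sum.inl k) = G *ᵥ Pi.single k 1 := by
        rw [mulVec_single_one]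
        rfl
      simp only [Sum.elim_inl]
      rw [this, mulVec_mulVec, nonsing_inv_mul _ ((isUnit_iff_isUnit_det G).1 hG), one_mulVec]
    · rfl
  have h3 : ∀ s : Finset (Fin M ⊕ κ), s.card ≤ M →
      LinearIndependent ℂ fun i : s => G⁻¹ *ᵥ φ' i := fun s hs =>
    (h2 s hs).map' (G⁻¹).mulVecLin
      (LinearMap.ker_eq_bot.2 (mulVec_injective_of_isUnit hG'))
  refine ⟨fun v => G⁻¹ *ᵥ φ' (Sum.inr v), by rw [e]; exact h1.map hG', fun v => ?_,
    fun Θ C hc i => ?_⟩
  · exact (h3 {Sum.inr v} (by simpa using hM)).ne_zero ⟨Sum.inr v, by simp⟩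
  · have hs : (Cᶜ.disjSum Θ).card ≤ M := by
      have := Finset.card_compl_add_card C
      rw [Finset.card_disjSum]
      rw [Fintype.card_fin] at this
      omega
    let A : Matrix (Cᶜ.disjSum Θ) (Fin M) ℂ := Matrix.of fun j => G⁻¹ *ᵥ φ' j
    have hr : A.rank = Fintype.card (Cᶜ.disjSum Θ) := LinearIndependent.rank_matrix (h3 _ hs)
    have ht : LinearMap.range A.mulVecLin = ⊤ :=
      Submodule.eq_top_of_finrank_eq (by rw [finrank_fintype_fun_eq_card, ← hr]; rfl)
    obtain ⟨t, ht⟩ := LinearMap.range_eq_top.1 ht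
      fun j => Sum.elim (fun _ => 0) (fun v => -(G⁻¹ *ᵥ φ' (Sum.inr v)) i) j.1
    refine ⟨star t, fun k hk => ?_, fun v hv => ?_⟩
    · have a : (G⁻¹ *ᵥ φ' (Sum.inl k)) ⬝ᵥ t = 0 := congrFun ht ⟨Sum.inl k, by simpa using hk⟩
      rw [← congrFun e (Sum.inl k)] at a
      simpa using a
    · have a : (G⁻¹ *ᵥ φ' (Sum.inr v)) ⬝ᵥ t = -(G⁻¹ *ᵥ φ' (Sum.inr v)) i :=
        congrFun ht ⟨Sum.inr v, by simpa using hv⟩
      rw [dotProduct_add, star_dotProduct_star, dotProduct_comm t, a]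
      simp

end Pool.Agent.Work.MP_d1ad45_an.L
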