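import Pool.Agent.Work.MP_d1ad45_an.L.Form

/-!
An explicit family of `4M - 2` vectors doing phase retrieval in `ℂ^M`: moment vectors on two
concentric circles.
-/

namespace Pool.Agent.Work.MP_d1ad45_an.L

open Finset Matrix ComplexConjugate Polynomial

variable {M : ℕ}

theorem diag_sum (hM : 1 ≤ M) (u : Fin (2 * M - 1) → ℂ) (hu : Function.Injective u)
    (hn : ∀ j, ‖u j‖ = 1) (r : ℝ) (x y : Vec M)
    (h : ∀ j, ‖∑ k : Fin M, ((r : ℂ) * u j) ^ (k : ℕ) * x k‖ =
      ‖∑ k : Fin M, ((r : ℂ) * u j) ^ (k : ℕ) * y k‖) (m : ℕ) :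
    ∑ p : Fin M × Fin M with (p.1 : ℕ) + (M - 1 - p.2) = m,
      (x p.1 * conj (x p.2) - y p.1 * conj (y p.2)) * (r : ℂ) ^ ((p.1 : ℕ) + p.2) = 0 := by
  let Q : ℂ[X] := ∑ p : Fin M × Fin M, monomial ((p.1 : ℕ) + (M - 1 - p.2))
    ((x p.1 * conj (x p.2) - y p.1 * conj (y p.2)) * (r : ℂ) ^ ((p.1 : ℕ) + p.2))
  have hQ : Q = 0 := by
    refine eq_zero_of_natDegree_lt_card_of_eval_eq_zero Q hu (fun j => ?_) ?_
    · have h1 : u j * conj (u j) = 1 := by
        rw [Complex.mul_conj', hn]; simp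
      have key : ∀ z : Vec M, ∑ p : Fin M × Fin M, z p.1 * conj (z p.2) *
          (r : ℂ) ^ ((p.1 : ℕ) + p.2) * u j ^ ((p.1 : ℕ) + (M - 1 - p.2)) =
          u j ^ (M - 1) * (‖∑ k : Fin M, ((r : ℂ) * u j) ^ (k : ℕ) * z k‖ : ℂ) ^ 2 := by
        intro z
        rw [← Complex.mul_conj', map_sum, sum_mul_sum, ← sum_product', univ_product_univ, mul_sum]
        refine sum_congr rfl fun p _ => ?_
        have h2 : u j ^ (M - 1) = u j ^ (M - 1 - p.2) * u j ^ (p.2 : ℕ) := by
          rw [← pow_add]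
          congr 1
          have := p.2.2
          omega
        have h3 : u j ^ (p.2 : ℕ) * conj (u j) ^ (p.2 : ℕ) = 1 := by
          rw [← mul_pow, h1, one_pow]
        simp only [map_mul, map_pow, Complex.conj_ofReal, mul_pow, pow_add, h2]
        linear_combination (-(z p.1 * conj (z p.2) * (r : ℂ) ^ (p.1 : ℕ) * (r : ℂ) ^ (p.2 : ℕ) *
          u j ^ (p.1 : ℕ) * u j ^ (M - 1 - p.2))) * h3
      simp only [Q, eval_finsetSum, eval_monomial, sub_mul, sum_sub_distrib, key, h j, sub_self]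
    · refine lt_of_le_of_lt (natDegree_sum_le_of_forall_le (n := 2 * M - 2) _ _ fun p _ =>
        (natDegree_monomial_le _).trans ?_) (by simp; omega)
      have := p.1.2
      omega
  have := congrArg (fun q => coeff q m) hQ
  simp only [Q, finsetSum_coeff, coeff_monomial, coeff_zero] at this
  rw [sum_filter]
  exact this

theorem outer_zero (x y : Vec M)
    (h : ∀ r : ℝ, r = 1 ∨ r = 2 → ∀ m : ℕ, ∑ p : Fin M × Fin M with (p.1 : ℕ) + (M - 1 - p.2) = m,
      (x p.1 * conj (x p.2) - y p.1 * conj (y p.2)) * (r : ℂ) ^ ((p.1 : ℕ) + p.2) = 0) :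
    ∀ a b, x a * conj (x b) = y a * conj (y b) := by
  set X : Fin M × Fin M → ℂ := fun p => x p.1 * conj (x p.2) - y p.1 * conj (y p.2) with hX
  set lv : Fin M × Fin M → ℕ := fun p => (p.1 : ℕ) + (M - 1 - p.2) with hlv
  by_contra hc
  push Not at hc
  obtain ⟨a, b, hab⟩ := hc
  obtain ⟨p0, hp0, hmax⟩ := exists_max_image (univ.filter fun p => X p ≠ 0) lv
    ⟨(a, b), by simpa [hX, sub_eq_zero] using hab⟩
  have hout : ∀ p, lv p0 < lv p → X p = 0 := fun p hp => by
    by_contra h0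
    exact absurd (hmax p (by simpa using h0)) (by omega)
  set s := univ.filter fun p => lv p = lv p0 ∧ X p ≠ 0 with hs
  have hsum : ∀ r : ℝ, r = 1 ∨ r = 2 → ∑ p ∈ s, X p * (r : ℂ) ^ ((p.1 : ℕ) + p.2) = 0 := by
    intro r hr
    rw [← h r hr (lv p0)]
    refine sum_subset (fun p hp => ?_) fun p hp hp' => ?_
    · simpa using (mem_filter.1 hp).2.1
    · have : X p = 0 := by
        by_contra h0
        exact hp' (mem_filter.2 ⟨mem_univ _, (mem_filter.1 hp).2, h0⟩)
      change X p * _ = 0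
      rw [this, zero_mul]
  have hne : s.Nonempty := ⟨p0, mem_filter.2 ⟨mem_univ _, rfl, (mem_filter.1 hp0).2⟩⟩
  obtain ⟨p1, hp1, hmin⟩ := exists_min_image s (fun p => (p.1 : ℕ)) hne
  obtain ⟨p3, hp3, hmx⟩ := exists_max_image s (fun p => (p.1 : ℕ)) hne
  have hinj : ∀ p ∈ s, ∀ q ∈ s, (p.1 : ℕ) = q.1 → p = q := by
    intro p hp q hq e
    have h1 := (mem_filter.1 hp).2.1
    have h2 := (mem_filter.1 hq).2.1
    have := p.2.2
    have := q.2.2
    simp only [hlv] at h1 h2
    exact Prod.ext (Fin.ext e) (Fin.ext (by omega))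
  have n1 := (mem_filter.1 hp1).2
  have n3 := (mem_filter.1 hp3).2
  by_cases hex : ∃ p2 ∈ s, p2 ≠ p1 ∧ p2 ≠ p3
  · obtain ⟨p2, hp2, h21, h23⟩ := hex
    have n2 := (mem_filter.1 hp2).2
    have l1 : (p1.1 : ℕ) < p2.1 :=
      lt_of_le_of_ne (hmin p2 hp2) fun e => h21 (hinj _ hp2 _ hp1 e.symm)
    have l2 : (p2.1 : ℕ) < p3.1 :=
      lt_of_le_of_ne (hmx p2 hp2) fun e => h23 (hinj _ hp2 _ hp3 e)
    have z21 := hout (p2.1, p1.2) (by rw [← n1.1]; simp only [hlv]; omega)
    have z31 := hout (p3.1, p1.2) (by rw [← n1.1]; simp only [hlv]; omega)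
    have z32 := hout (p3.1, p2.2) (by rw [← n2.1]; simp only [hlv]; omega)
    have det : X p1 * (X p2 * X p3 - X (p2.1, p3.2) * X (p3.1, p2.2)) -
        X (p1.1, p2.2) * (X (p2.1, p1.2) * X p3 - X (p2.1, p3.2) * X (p3.1, p1.2)) +
        X (p1.1, p3.2) * (X (p2.1, p1.2) * X (p3.1, p2.2) - X p2 * X (p3.1, p1.2)) = 0 := by
      simp only [hX]
      ring
    rw [z21, z31, z32] at det
    simp only [mul_zero, zero_mul, sub_zero, add_zero, mul_eq_zero] at det
    rcases det with h | h | h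
    exacts [n1.2 h, n2.2 h, n3.2 h]
  · push Not at hex
    by_cases h13 : p1 = p3
    · have : s = {p1} := eq_singleton_iff_unique_mem.2 ⟨hp1, fun p hp => by
        by_contra h0
        exact h0 ((hex p hp h0).trans h13.symm)⟩
      have h1 := hsum 1 (Or.inl rfl)
      rw [this, sum_singleton] at h1
      exact n1.2 (by simpa using h1)
    · have : s = {p1, p3} := by
        ext p
        simp only [mem_insert, mem_singleton]
        refine ⟨fun hp => (em (p = p1)).imp_right (hex p hp), ?_⟩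
        rintro (rfl | rfl) <;> assumption
      have h1 := hsum 1 (Or.inl rfl)
      have h2 := hsum 2 (Or.inr rfl)
      rw [this, sum_pair h13] at h1 h2
      simp only [Complex.ofReal_one, one_pow, mul_one, Complex.ofReal_ofNat] at h1 h2
      have h3 : X p1 * ((2 : ℂ) ^ ((p1.1 : ℕ) + p1.2) - 2 ^ ((p3.1 : ℕ) + p3.2)) = 0 := by
        linear_combination h2 - (2 : ℂ) ^ ((p3.1 : ℕ) + p3.2) * h1
      have h4 := sub_eq_zero.1 ((mul_eq_zero.1 h3).resolve_left n1.2)
      have h5 : (p1.1 : ℕ) + p1.2 = p3.1 + p3.2 :=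
        Nat.pow_right_injective le_rfl (by exact_mod_cast h4)
      have e1 := n1.1
      have e3 := n3.1
      have := p1.2.2
      have := p3.2.2
      simp only [hlv] at e1 e3
      exact h13 (hinj _ hp1 _ hp3 (by omega))

theorem unit_of_outer (x y : Vec M) (h : ∀ a b, x a * conj (x b) = y a * conj (y b)) :
    ∃ c : ℂ, ‖c‖ = 1 ∧ x = c • y := by
  have hn : ∀ a, ‖x a‖ = ‖y a‖ := by
    intro a
    have := congrArg norm (h a a)
    simp only [norm_mul, RCLike.norm_conj] at this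
    exact (mul_self_inj (norm_nonneg _) (norm_nonneg _)).1 this
  by_cases hy : y = 0
  · refine ⟨1, by simp, funext fun a => ?_⟩
    have := hn a
    simpa [hy] using this
  · obtain ⟨b, hb⟩ := Function.ne_iff.1 hy
    have hb' : x b ≠ 0 := by
      rw [← norm_ne_zero_iff, hn, norm_ne_zero_iff]
      exact hb
    have hb2 : conj (x b) ≠ 0 := by simpa using hb'
    refine ⟨conj (y b) / conj (x b), ?_, funext fun a => ?_⟩
    · rw [norm_div, RCLike.norm_conj, RCLike.norm_conj, ← hn, div_self (norm_ne_zero_iff.2 hb')]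
    · rw [Pi.smul_apply, smul_eq_mul, div_mul_eq_mul_div, eq_div_iff hb2, h a b, mul_comm]

theorem exists_goodV (hM : 1 ≤ M) : ∃ φ : Fin (2 * M - 1) × Fin 2 → Vec M, GoodV φ := by
  have hζ := Complex.isPrimitiveRoot_exp (2 * M - 1) (by omega)
  set ζ := Complex.exp (2 * Real.pi * Complex.I / (2 * M - 1 : ℕ))
  have hn : ‖ζ‖ = 1 := hζ.norm'_eq_one (by omega)
  let u : Fin (2 * M - 1) → ℂ := fun j => ζ ^ (j : ℕ)
  have hu : Function.Injective u := fun i j e => Fin.ext (hζ.pow_inj i.2 j.2 e)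
  refine ⟨fun p k => conj (((((p.2 : ℕ) + 1 : ℝ) : ℂ) * u p.1) ^ (k : ℕ)), fun x y h => ?_⟩
  refine unit_of_outer x y (outer_zero x y fun r hr => diag_sum hM u hu
    (fun j => by simp [u, hn]) r x y fun j => ?_)
  rcases hr with rfl | rfl
  · simpa [dotProduct] using h (j, 0)
  · have := h (j, 1)
    simp only [dotProduct, Pi.star_apply, Complex.star_def, Complex.conj_conj, Fin.val_one,
      Nat.cast_one, one_add_one_eq_two] at this
    exact this

end Pool.Agent.Work.MP_d1ad45_an.L
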