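import Pool.Agent.Work.MP_d1ad45_an.L.Core
import Pool.Agent.Work.MP_d1ad45_an.L.Upper

/-!
Passage between subspaces of Euclidean space and matrices.
-/

namespace Pool.Agent.Work.MP_d1ad45_an.L

open Matrix Module

variable {M : ℕ}

theorem goodV_of_lines {ι : Type*} (W : ι → Submodule ℂ (EuclideanSpace ℂ (Fin M)))
    (h1 : ∀ n, finrank ℂ (W n) = 1)
    (hW : ∀ x y : EuclideanSpace ℂ (Fin M),
      (∀ n, ‖(W n).starProjection x‖ = ‖(W n).starProjection y‖) →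
      ∃ c : ℂ, ‖c‖ = 1 ∧ x = c • y) : ∃ φ : ι → Vec M, GoodV φ := by
  have : ∀ n, ∃ v, W n = ℂ ∙ v := by
    intro n
    obtain ⟨v, hv, hv0⟩ := Submodule.exists_mem_ne_zero_of_ne_bot (p := W n) (by
      intro h
      have := h1 n
      rw [h] at this
      simp at this)
    exact ⟨v, eq_span_singleton_of_mem_of_finrank_eq_one (h1 n) hv hv0⟩
  choose v hv using this
  refine ⟨fun n => (v n).ofLp, fun x y hxy => ?_⟩
  obtain ⟨c, hc, e⟩ := hW (WithLp.toLp 2 x) (WithLp.toLp 2 y) fun n => by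
    have e : ∀ z : Vec M, inner ℂ (v n) (WithLp.toLp 2 z) = star (v n).ofLp ⬝ᵥ z := fun z => by
      rw [EuclideanSpace.inner_eq_star_dotProduct, dotProduct_comm]
    simp only [hv n, Submodule.starProjection_singleton, norm_smul, norm_div, e, hxy n]
  exact ⟨c, hc, congrArg WithLp.ofLp e⟩

theorem main (hM : 65 ≤ M) {K N : ℕ} (hK : K + 2 ≤ 4 * M) {φ : Fin K → Vec M} (hφ : GoodV φ)
    (hN : K ≤ N) (d : Fin N → ℕ) (hd : ∀ n, 1 ≤ d n ∧ d n + 1 ≤ M) :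
    ∃ W : Fin N → Submodule ℂ (EuclideanSpace ℂ (Fin M)), (∀ n, finrank ℂ (W n) = d n) ∧
      ∀ x y : EuclideanSpace ℂ (Fin M),
        (∀ n, ‖(W n).starProjection x‖ = ‖(W n).starProjection y‖) →
        ∃ c : ℂ, ‖c‖ = 1 ∧ x = c • y := by
  obtain ⟨P, hP, hG⟩ := transfer hM (by simpa using hK) hφ (fun i => d (Fin.castLE hN i))
    fun i => hd _
  have : ∀ n : Fin N, ∃ Q : Mat M, IsPr Q (d n) ∧ ∀ h : (n : ℕ) < K, Q = P ⟨n, h⟩ := by
    intro n
    by_cases h : (n : ℕ) < K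
    · exact ⟨P ⟨n, h⟩, hP ⟨n, h⟩, fun _ => rfl⟩
    · obtain ⟨Z, -, hZ⟩ := Finset.exists_subset_card_eq (s := (Finset.univ : Finset (Fin M)))
        (n := d n) (by have := hd n; simp; omega)
      exact ⟨cp Z, hZ ▸ isPr_cp Z, fun h' => absurd h' h⟩
  choose Q hQ hQP using this
  choose W hW hWQ using fun n => exists_subspace (hQ n)
  refine ⟨W, hW, fun x y h => ?_⟩
  obtain ⟨c, hc, e⟩ := hG x.ofLp y.ofLp fun i => by
    rw [← show Q (Fin.castLE hN i) = P i from hQP _ i.2, ← hWQ, ← hWQ, h]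
  exact ⟨c, hc, WithLp.ofLp_injective 2 e⟩

theorem exists_goodV' (hM : 1 ≤ M) : ∃ φ : Fin ((2 * M - 1) * 2) → Vec M, GoodV φ := by
  obtain ⟨φ, h⟩ := exists_goodV hM
  exact ⟨φ ∘ finProdFinEquiv.symm, fun x y e => h x y fun i => by
    simpa using e (finProdFinEquiv i)⟩

end Pool.Agent.Work.MP_d1ad45_an.L
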